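import Pool.Agent.Run7.h673.LU.Main

/-! Special cases of the group theoretic condition. -/

set_option autoImplicit false

namespace Run7.h673.LU

open Run7.h673.LT
open scoped Pointwise

variable {G : Type} [Group G]

/-- centreless groups -/
theorem admR_of_center (h : Subgroup.center G = ⊥) : AdmR (⊥ : Subgroup G) ⊤ := by
  intro N hN _ hN1
  have hcyc : ∀ τ ∈ Inert (⊥ : Subgroup G) N, N ≤ Subgroup.zpowers τ := by
    intro τ hτ ν hν
    obtain ⟨k, hk⟩ := hτ ν hν ((1 : G) : G ⧸ (⊥ : Subgroup G))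
    have h1 : (((τ ^ k * 1 : G)) : G ⧸ (⊥ : Subgroup G)) = ((ν * 1 : G) : G ⧸ (⊥ : Subgroup G)) := hk
    rw [QuotientGroup.eq, Subgroup.mem_bot] at h1
    rw [mul_one, mul_one] at h1
    have h2 : ν = τ ^ k := by
      have := congrArg (fun t => τ ^ k * t) h1
      simpa using this
    rw [h2]
    exact Subgroup.zpow_mem_zpowers τ k
  by_cases hbad : Inert (⊥ : Subgroup G) N = ∅
  · left
    intro σ _ hσ
    rw [hbad] at hσ
    exact hσ
  · right
    obtain ⟨σ, hσ⟩ := Set.nonempty_iff_ne_empty.mpr hbad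
    intro htop
    apply hN1
    have hcomm : ∀ x ∈ N, ∀ y ∈ N, x * y = y * x := by
      intro x hx y hy
      obtain ⟨a, ha⟩ := Subgroup.mem_zpowers_iff.mp (hcyc σ hσ hx)
      obtain ⟨b, hb⟩ := Subgroup.mem_zpowers_iff.mp (hcyc σ hσ hy)
      rw [← ha, ← hb, ← zpow_add, ← zpow_add, add_comm]
    have h1 : Subgroup.closure (Inert (⊥ : Subgroup G) N ∪ (N : Set G)) ≤
        Subgroup.centralizer (N : Set G) := by
      rw [Subgroup.closure_le]
      rintro x (hx | hx)
      · rw [SetLike.mem_coe, Subgroup.mem_centralizer_iff]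
        intro y hy
        obtain ⟨a, ha⟩ := Subgroup.mem_zpowers_iff.mp (hcyc x hx hy)
        rw [← ha]
        exact (Commute.self_zpow x a).symm
      · rw [SetLike.mem_coe, Subgroup.mem_centralizer_iff]
        intro y hy
        exact hcomm y hy x hx
    rw [htop] at h1
    intro x hx
    rw [← h, Subgroup.mem_center_iff]
    intro g
    have h2 := h1 (Subgroup.mem_top g)
    rw [Subgroup.mem_centralizer_iff] at h2
    exact (h2 x hx).symm

/-- a normal subgroup which is not contained in a maximal subgroup is transitive on the cosets -/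
theorem trans_of_coatom {H N : Subgroup G} (hH : IsCoatom H) (hN : N.Normal) (hN1 : ¬ N ≤ H)
    (x y : G ⧸ H) : ∃ ν ∈ N, ν • x = y := by
  have hsup : N ⊔ H = ⊤ := by
    refine hH.2 _ (lt_of_le_of_ne le_sup_right fun h => hN1 ?_)
    rw [h]
    exact le_sup_left
  obtain ⟨a, rfl⟩ := QuotientGroup.mk_surjective x
  obtain ⟨b, rfl⟩ := QuotientGroup.mk_surjective y
  have h1 : a⁻¹ * b ∈ ((N ⊔ H : Subgroup G) : Set G) := by rw [hsup]; trivial
  rw [Subgroup.normal_mul] at h1
  obtain ⟨n, hn, k, hk, hnk⟩ := h1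
  refine ⟨a * n * a⁻¹, hN.conj_mem n hn a, ?_⟩
  change ((a * n * a⁻¹ * a : G) : G ⧸ H) = (b : G ⧸ H)
  rw [QuotientGroup.eq]
  have h2 : b = a * (n * k) := by
    have h3 : n * k = a⁻¹ * b := hnk
    rw [h3]
    group
  rw [h2]
  have h4 : (a * n * a⁻¹ * a)⁻¹ * (a * (n * k)) = k := by group
  rw [h4]
  exact hk

/-- for a maximal subgroup the elements of `Inert H N` act transitively on the cosets -/
theorem inert_trans {H N : Subgroup G} (hH : IsCoatom H) (hN : N.Normal) (hN1 : ¬ N ≤ H)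
    {σ : G} (hσ : σ ∈ Inert H N) (x y : G ⧸ H) : ∃ k : ℤ, σ ^ k • x = y := by
  obtain ⟨ν, hν, rfl⟩ := trans_of_coatom hH hN hN1 x y
  exact hσ ν hν x

theorem admR_of_coatom {H : Subgroup G} (hH : IsCoatom H)
    (h : ∀ σ : G, ∃ x y : G ⧸ H, ∀ k : ℤ, σ ^ k • x ≠ y) : AdmR H ⊤ := by
  intro N hN _ hN1
  left
  intro σ _ hσ
  obtain ⟨x, y, hxy⟩ := h σ
  obtain ⟨k, hk⟩ := inert_trans hH hN hN1 hσ x y
  exact hxy k hk

/-- chains of subgroups and the length of the lattice above a subgroup -/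
theorem chain_of_coheight {H : Subgroup G} {s : ℕ} (h : Order.coheight H ≤ s)
    (U : ℕ → Subgroup G) (hU0 : H < U 0) : ¬ ∀ i < s, U i < U (i + 1) := by
  intro hU
  have h1 : ∀ j ≤ s, ((j : ℕ) : ℕ∞) ≤ Order.coheight (U (s - j)) := by
    intro j
    induction j with
    | zero => intro _; simp
    | succ j ih =>
      intro hj
      have h2 := ih (by omega)
      have h3 := hU (s - (j + 1)) (by omega)
      have h4 : s - (j + 1) + 1 = s - j := by omega
      rw [h4] at h3
      have h5 := Order.coheight_add_one_le h3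
      push_cast
      exact le_trans (add_le_add_left h2 1) h5
  have h2 := h1 s le_rfl
  rw [Nat.sub_self] at h2
  have h3 := Order.coheight_add_one_le hU0
  have h4 : ((s : ℕ) : ℕ∞) + 1 ≤ (s : ℕ∞) := (add_le_add_left h2 1).trans (h3.trans h)
  have h5 : s + 1 ≤ s := by exact_mod_cast h4
  omega

end Run7.h673.LU
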