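import Pool.Agent.Run7.h673.LT.Small

/-! The dichotomy for the elements of a subfield. -/

set_option autoImplicit false

namespace Run7.h673.LU

open NumberField Finset Run7.h673.LT
open scoped Classical Pointwise

variable {L : Type} [Field L] [NumberField L]

/-- the dichotomy: a scale at which the small integers fixed by `H` are in a small Galois field -/
theorem dichotomy2 {s : ℕ} {H R : Subgroup Gal(L/ℚ)} (C : ℝ)
    (hC : (1 + Nat.card (Subgroup Gal(L/ℚ)) : ℝ) ^ Nat.card (Subgroup Gal(L/ℚ)) ≤ C)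
    (B : ℕ → ℝ) (hB0 : ∀ j, 0 ≤ B j) (hBm : Monotone B) (hR : Small R (B 0))
    (hH : ∀ j ≤ s, ∀ U ≤ H, ¬ Small U (C * B j))
    (hchain : ∀ U : ℕ → Subgroup Gal(L/ℚ), H < U 0 → ¬ ∀ i < s, U i < U (i + 1)) :
    ∃ j < s, ∃ N0 : Subgroup Gal(L/ℚ), N0.Normal ∧ N0 ≤ R ∧
      Small N0 (C * B j) ∧ ∀ U : Subgroup Gal(L/ℚ), H ≤ U → Small U (B (j + 1)) → N0 ≤ U := by
  set κ := Nat.card (Subgroup Gal(L/ℚ)) with hκ
  have hft : Fintype (Subgroup Gal(L/ℚ)) := Fintype.ofFinite _
  let S : ℕ → Finset (Subgroup Gal(L/ℚ)) := fun j => Finset.univ.filter (fun U => Small U (B j))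
  have hmemS : ∀ j U, U ∈ S j ↔ Small U (B j) := by
    intro j U
    change U ∈ Finset.univ.filter (fun U => Small U (B j)) ↔ _
    rw [mem_filter]
    simp
  have hSmono : ∀ j, S j ⊆ S (j + 1) := by
    intro j U hU
    rw [hmemS] at hU ⊢
    exact hU.mono (hBm (Nat.le_succ j))
  let M : ℕ → Subgroup Gal(L/ℚ) := fun j => (S j).inf id
  have hMle : ∀ j, M (j + 1) ≤ M j := fun j => Finset.inf_mono (hSmono j)
  have hMS : ∀ j, Small (M j) (C * B j) := by
    intro j
    refine (Small.finset_inf (hB0 j) (S j) fun U hU => (hmemS j U).mp hU).mono ?_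
    refine mul_le_mul_of_nonneg_right (le_trans ?_ hC) (hB0 j)
    refine pow_le_pow_right₀ ?_ ?_
    · have : (0 : ℝ) ≤ (κ : ℝ) := Nat.cast_nonneg _
      linarith
    · rw [hκ, Nat.card_eq_fintype_card]
      exact Finset.card_le_univ _
  have hMR : ∀ j, M j ≤ R := by
    intro j
    refine Finset.inf_le (f := id) ?_
    rw [hmemS]
    exact hR.mono (hBm (Nat.zero_le j))
  let V : ℕ → Subgroup Gal(L/ℚ) := fun j => H ⊔ M j
  have hVle : ∀ j, V (j + 1) ≤ V j := fun j => sup_le_sup_left (hMle j) H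
  have hHV : ∀ j ≤ s, H < V j := by
    intro j hj
    refine lt_of_le_of_ne le_sup_left fun h => ?_
    have h1 : M j ≤ H := by
      rw [h]
      exact le_sup_right
    exact hH j hj (M j) h1 (hMS j)
  have hex : ∃ j < s, V (j + 1) = V j := by
    by_contra hcon
    push Not at hcon
    refine hchain (fun i => V (s - i)) (hHV _ (Nat.sub_le _ _)) fun i hi => ?_
    have h1 : s - i = (s - (i + 1)) + 1 := by omega
    change V (s - i) < V (s - (i + 1))
    rw [h1]
    exact lt_of_le_of_ne (hVle _) (hcon _ (by omega))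
  obtain ⟨j, hj, hVj⟩ := hex
  refine ⟨j, hj, M j, ?_, hMR j, hMS j, ?_⟩
  · constructor
    intro n hn g
    have h1 : ∀ U ∈ S j, g * n * g⁻¹ ∈ U := by
      intro U hU
      have h2 : U.map (MulAut.conj g⁻¹).toMonoidHom ∈ S j :=
        (hmemS j _).mpr (((hmemS j U).mp hU).conj g⁻¹)
      have h3 : M j ≤ U.map (MulAut.conj g⁻¹).toMonoidHom := Finset.inf_le (f := id) h2
      have h4 := h3 hn
      rw [Subgroup.mem_map] at h4
      obtain ⟨u, hu, hun⟩ := h4
      have h5 : g * n * g⁻¹ = u := by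
        rw [← hun]
        simp
        group
      rw [h5]
      exact hu
    change g * n * g⁻¹ ∈ (S j).inf id
    have h6 : Subgroup.zpowers (g * n * g⁻¹) ≤ (S j).inf id := by
      refine Finset.le_inf fun U hU => ?_
      rw [Subgroup.zpowers_le]
      exact h1 U hU
    exact h6 (Subgroup.mem_zpowers _)
  · intro U hHU hsm
    have h1 : U ∈ S (j + 1) := (hmemS _ _).mpr hsm
    have h2 : M (j + 1) ≤ U := Finset.inf_le (f := id) h1
    have h3 : V (j + 1) ≤ U := sup_le hHU h2
    rw [hVj] at h3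
    exact le_sup_right.trans h3

end Run7.h673.LU
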