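import Pool.Agent.Run7.h673.LU.Use

/-! The small primes of a subfield and torsion classes, for primes of arbitrary degree. -/

set_option autoImplicit false

namespace Run7.h673.LU

open NumberField Finset Pool.Agent.TH847.LS Pool.Agent.TH847.LG NumberField.InfinitePlace
  IntermediateField Run7.h673.LT
open scoped Classical nonZeroDivisors

variable {M K : Type} [Field M] [NumberField M] [Field K] [NumberField K] [Algebra M K]

/-- primes `P p`, for all `p` in a set `G`, such that each element of `S` in `P p` is also in the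
other prime `P' p`, where the elements outside `S` are large at a place compared with all `p`:
the small-prime inequality -/
theorem evTwo {n : ℕ} (hn : Module.finrank ℚ K = n) {l : ℕ} (hl : 1 ≤ l) (N : ℕ)
    (hN : 2 ^ n * √|(discr K : ℝ)| < N) (G : Finset ℕ) (S : Set (𝓞 M))
    (P P' : ℕ → Ideal (𝓞 M))
    (hG : ∀ p ∈ G, p.Prime ∧ (P p).IsPrime ∧ (P' p).IsPrime ∧ ((p : ℕ) : 𝓞 M) ∈ P p ∧
      ((p : ℕ) : 𝓞 M) ∈ P' p ∧ P p ≠ P' p ∧ ∀ x ∈ S, x ∈ P p → x ∈ P' p)
    (hgood : ∀ p ∈ G, ∀ β : 𝓞 M, β ∉ S → ∃ v : InfinitePlace M,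
      (150 * p : ℝ) ^ (2 * l * Module.finrank M K) < v (β : M)) :
    (G.card : ℝ) * (Nat.card {c : ClassGroup (𝓞 K) // c ^ l = 1} : ℝ) ≤
      ∑ J ∈ FI K N, (1 + Real.log ((N : ℝ) / Ideal.absNorm J)) ^ n := by
  have hn0 : 0 < n := by rw [← hn]; exact (Module.finrank_pos (R := ℚ) (M := K))
  have hnr : (0 : ℝ) < n := by exact_mod_cast hn0
  have hlr : (1 : ℝ) ≤ l := by exact_mod_cast hl
  set e := Module.finrank M K with he
  have he0 : 0 < e := Module.finrank_pos
  obtain ⟨m, hm⟩ : ∃ m, Module.finrank ℚ M = m := ⟨_, rfl⟩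
  have hm0 : 0 < m := by rw [← hm]; exact (Module.finrank_pos (R := ℚ) (M := M))
  have hnme : m * e = n := by rw [← hm, he, ← hn]; exact Module.finrank_mul_finrank ℚ M K
  -- the cofactors in `M`
  have hcof : ∀ p : {p // p ∈ G}, ∃ P' J : (Ideal (𝓞 M))⁰, (P' : Ideal (𝓞 M)) = P p.1 ∧
      (P' : Ideal (𝓞 M)) * (J : Ideal (𝓞 M)) = Ideal.span {((p.1 : ℕ) : 𝓞 M)} ∧
      Ideal.absNorm (P' : Ideal (𝓞 M)) ≤ p.1 ^ m ∧
      Ideal.absNorm (J : Ideal (𝓞 M)) ≤ p.1 ^ m := by
    intro p
    have hp := (hG p.1 p.2).1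
    have h1 : P p.1 ∣ Ideal.span {((p.1 : ℕ) : 𝓞 M)} := by
      rw [Ideal.dvd_iff_le, Ideal.span_le, Set.singleton_subset_iff]
      exact (hG p.1 p.2).2.2.2.1
    obtain ⟨J, hJ⟩ := h1
    have h3 : Ideal.absNorm (P p.1) * Ideal.absNorm J = p.1 ^ m := by
      rw [← map_mul, ← hJ, Ideal.absNorm_span_natCast, RingOfIntegers.rank, hm]
    have hpm : 0 < p.1 ^ m := pow_pos hp.pos m
    have hne : P p.1 * J ≠ 0 := by
      rw [← hJ, Ne, Ideal.zero_eq_bot, Ideal.span_singleton_eq_bot]
      exact_mod_cast hp.ne_zero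
    refine ⟨⟨P p.1, mem_nonZeroDivisors_of_ne_zero (left_ne_zero_of_mul hne)⟩,
      ⟨J, mem_nonZeroDivisors_of_ne_zero (right_ne_zero_of_mul hne)⟩, rfl, hJ.symm, ?_, ?_⟩
    · exact Nat.le_of_dvd hpm ⟨_, h3.symm⟩
    · exact Nat.le_of_dvd hpm ⟨_, (mul_comm _ _).trans h3 |>.symm⟩
  choose PM JM hPM hPJM hNP hNJ using hcof
  let φ := algebraMap (𝓞 M) (𝓞 K)
  have hmapne : ∀ I : (Ideal (𝓞 M))⁰, (I : Ideal (𝓞 M)).map φ ∈ nonZeroDivisors (Ideal (𝓞 K)) := by
    intro I
    refine mem_nonZeroDivisors_of_ne_zero ?_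
    rw [Ne, Ideal.zero_eq_bot, Ideal.map_eq_bot_iff_of_injective
      (FaithfulSMul.algebraMap_injective (𝓞 M) (𝓞 K))]
    exact nonZeroDivisors.coe_ne_zero I
  let PK : {p // p ∈ G} → (Ideal (𝓞 K))⁰ := fun p => ⟨_, hmapne (PM p)⟩
  let JK : {p // p ∈ G} → (Ideal (𝓞 K))⁰ := fun p => ⟨_, hmapne (JM p)⟩
  have hPJK : ∀ p, (PK p : Ideal (𝓞 K)) * (JK p : Ideal (𝓞 K)) =
      Ideal.span {((p.1 : ℕ) : 𝓞 K)} := by
    intro p
    change (PM p : Ideal (𝓞 M)).map φ * (JM p : Ideal (𝓞 M)).map φ = _
    rw [← Ideal.map_mul, hPJM, Ideal.map_span, Set.image_singleton, map_natCast]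
  have hNPK : ∀ p, Ideal.absNorm (PK p : Ideal (𝓞 K)) = Ideal.absNorm (PM p : Ideal (𝓞 M)) ^ e := by
    intro p
    change Ideal.absNorm ((PM p : Ideal (𝓞 M)).map φ) = _
    rw [Ideal.absNorm_algebraMap, finrank_int]
  have hNJK : ∀ p, Ideal.absNorm (JK p : Ideal (𝓞 K)) = Ideal.absNorm (JM p : Ideal (𝓞 M)) ^ e := by
    intro p
    change Ideal.absNorm ((JM p : Ideal (𝓞 M)).map φ) = _
    rw [Ideal.absNorm_algebraMap, finrank_int]
  have hA : ∀ c : {c : ClassGroup (𝓞 K) // c ^ l = 1}, ∃ (A : (Ideal (𝓞 K))⁰)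
      (γ : 𝓞 K), ClassGroup.mk0 A = c.1 ∧
      (A : Ideal (𝓞 K)) ^ l = Ideal.span {γ} ∧ γ ≠ 0 ∧
      ∀ w : InfinitePlace K, |Lw w (γ : K)| ≤ 2 * l :=
    fun c => exists_rep hl c.1 c.2
  choose A γ hA1 hA2 hA3 hA4 using hA
  have key := pack hn N hN ({p // p ∈ G} × {c : ClassGroup (𝓞 K) // c ^ l = 1})
    (fun i => A i.2 * PK i.1) (by
      rintro ⟨p, c⟩ ⟨q, c'⟩ a b ha hb hab hw
      simp only [Submonoid.coe_mul] at hab
      have haK : (a : K) ≠ 0 := by exact_mod_cast ha
      have hbK : (b : K) ≠ 0 := by exact_mod_cast hb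
      have hγK : (γ c : K) ≠ 0 := by exact_mod_cast hA3 c
      have hγK' : (γ c' : K) ≠ 0 := by exact_mod_cast hA3 c'
      have hpK : ((p.1 : ℕ) : K) ≠ 0 := by exact_mod_cast (hG p p.2).1.ne_zero
      have hpq : p = q := by
        by_contra hne
        -- the l-th power
        have e1 : Ideal.span {a ^ l * γ c'} * ((PK q : Ideal (𝓞 K)) ^ l * (JK p : Ideal (𝓞 K)) ^ l) =
            Ideal.span {b ^ l * γ c * (p.1 : 𝓞 K) ^ l} := by
          have e2 := congrArg (fun I => I ^ l * (JK p : Ideal (𝓞 K)) ^ l) hab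
          simp only [mul_pow, Ideal.span_singleton_pow, hA2] at e2
          rw [← Ideal.span_singleton_mul_span_singleton, ← Ideal.span_singleton_mul_span_singleton,
            ← Ideal.span_singleton_mul_span_singleton, ← Ideal.span_singleton_pow (p.1 : 𝓞 K),
            ← hPJK p, mul_pow]
          calc _ = Ideal.span {a ^ l} * (Ideal.span {γ c'} * (PK q : Ideal (𝓞 K)) ^ l) *
                (JK p : Ideal (𝓞 K)) ^ l := by ring
            _ = Ideal.span {b ^ l} * (Ideal.span {γ c} * (PK p : Ideal (𝓞 K)) ^ l) *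
                (JK p : Ideal (𝓞 K)) ^ l := e2
            _ = _ := by ring
        have hden : a ^ l * γ c' ≠ 0 := mul_ne_zero (pow_ne_zero _ ha) (hA3 c')
        have hdvd : a ^ l * γ c' ∣ b ^ l * γ c * (p.1 : 𝓞 K) ^ l := by
          rw [← Ideal.span_singleton_le_span_singleton, ← e1]
          exact Ideal.mul_le_left
        obtain ⟨z, hz⟩ := hdvd
        have hzspan : Ideal.span {z} = (PK q : Ideal (𝓞 K)) ^ l * (JK p : Ideal (𝓞 K)) ^ l := by
          rw [hz, ← Ideal.span_singleton_mul_span_singleton (a ^ l * γ c')] at e1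
          have hne0 : Ideal.span {a ^ l * γ c'} ≠ (0 : Ideal (𝓞 K)) := by
            rw [Ne, Ideal.zero_eq_bot, Ideal.span_singleton_eq_bot]
            exact hden
          exact (mul_left_cancel₀ hne0 e1).symm
        have hz0 : z ≠ 0 := by
          rintro rfl
          rw [mul_zero] at hz
          have : (b ^ l * γ c * (p.1 : 𝓞 K) ^ l) ≠ 0 := by
            refine mul_ne_zero (mul_ne_zero (pow_ne_zero _ hb) (hA3 c)) (pow_ne_zero _ ?_)
            exact_mod_cast (hG p p.2).1.ne_zero
          exact this hz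
        have hzK : (z : K) ≠ 0 := by exact_mod_cast hz0
        -- the norm of z
        set T : ℕ := Ideal.absNorm (PM q : Ideal (𝓞 M)) * Ideal.absNorm (JM p : Ideal (𝓞 M)) with hTdef
        have hT0 : 0 < T := Nat.mul_pos (absNorm_pos (nonZeroDivisors.coe_ne_zero (PM q)))
          (absNorm_pos (nonZeroDivisors.coe_ne_zero (JM p)))
        have hnz : (Algebra.norm ℤ z).natAbs = (T ^ e) ^ l := by
          rw [← Ideal.absNorm_span_singleton, hzspan, map_mul, map_pow, map_pow,
            hNPK, hNJK, hTdef, mul_pow, mul_pow]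
        have hnz' : |((Algebra.norm ℚ (z : K) : ℚ) : ℝ)| =
            (((T ^ e) ^ l : ℕ) : ℝ) := by
          rw [← Algebra.coe_norm_int, ← hnz, Nat.cast_natAbs]
          push_cast
          rfl
        set y := max p.1 q.1 with hy
        have hy0 : 0 < y := lt_of_lt_of_le (hG p p.2).1.pos (le_max_left _ _)
        have hyr : (0 : ℝ) < y := by exact_mod_cast hy0
        have hnle : (T ^ e) ^ l ≤ (y ^ (2 * l)) ^ n := by
          have h1 : T ≤ y ^ m * y ^ m := by
            refine Nat.mul_le_mul ((hNP q).trans ?_) ((hNJ p).trans ?_)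
            · exact Nat.pow_le_pow_left (le_max_right _ _) m
            · exact Nat.pow_le_pow_left (le_max_left _ _) m
          calc (T ^ e) ^ l ≤ ((y ^ m * y ^ m) ^ e) ^ l := by gcongr
            _ = (y ^ (2 * l)) ^ n := by
                rw [← pow_add, ← pow_mul, ← pow_mul, ← pow_mul, ← hnme]
                congr 1
                ring
        -- the size of z at the places
        have hLz : ∀ w : InfinitePlace K, Lw w (z : K) ≤ 5 * l := by
          intro w
          have h1 : Lw w ((a ^ l * γ c' * z : 𝓞 K) : K) =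
              Lw w ((b ^ l * γ c * (p.1 : 𝓞 K) ^ l : 𝓞 K) : K) := by rw [hz]
          push_cast at h1
          rw [Lw_mul w (mul_ne_zero (pow_ne_zero _ haK) hγK') hzK,
            Lw_mul w (pow_ne_zero _ haK) hγK', Lw_mul w (mul_ne_zero (pow_ne_zero _ hbK) hγK)
              (pow_ne_zero _ hpK), Lw_mul w (pow_ne_zero _ hbK) hγK, Lw_pow, Lw_pow, Lw_pow,
            Lw_natCast, mul_zero, add_zero] at h1
          have h2 := abs_lt.mp (hw w)
          have h3 := abs_le.mp (hA4 c w)
          have h4 := abs_le.mp (hA4 c' w)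
          have h5 : (l : ℝ) * (Lw w (b : K) - Lw w (a : K)) ≤ l * 1 :=
            mul_le_mul_of_nonneg_left (by linarith) (by linarith)
          nlinarith
        have hwz : ∀ w : InfinitePlace K, w (z : K) ≤ (150 * y : ℝ) ^ (2 * l) := by
          intro w
          have h1 := hLz w
          unfold Lw at h1
          rw [hnz', hn] at h1
          have hpos : (0 : ℝ) < (((T ^ e) ^ l : ℕ) : ℝ) := by
            exact_mod_cast pow_pos (pow_pos hT0 e) l
          have h2 : Real.log (((T ^ e) ^ l : ℕ) : ℝ) ≤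
              n * ((2 * l : ℕ) * Real.log y) := by
            have : (((T ^ e) ^ l : ℕ) : ℝ) ≤ ((y : ℝ) ^ (2 * l)) ^ n := by
              exact_mod_cast hnle
            have h3 := Real.log_le_log hpos this
            rw [Real.log_pow, Real.log_pow] at h3
            exact h3
          have h3 : Real.log (((T ^ e) ^ l : ℕ) : ℝ) / n ≤ (2 * l : ℕ) * Real.log y := by
            rw [div_le_iff₀ hnr]
            linarith
          have h2l : ((2 * l : ℕ) : ℝ) = 2 * l := by push_cast; ring
          rw [h2l] at h3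
          have h4 : Real.log (w (z : K)) ≤ Real.log ((150 * y : ℝ) ^ (2 * l)) := by
            rw [Real.log_pow, Real.log_mul (by norm_num) hyr.ne']
            have h5 : (5 : ℝ) ≤ Real.log 150 := by
              rw [Real.le_log_iff_exp_le (by norm_num)]
              have h6 : Real.exp 1 < 2.7182818286 := Real.exp_one_lt_d9
              have h7 : Real.exp 5 = Real.exp 1 ^ 5 := by
                rw [← Real.exp_nat_mul]; norm_num
              rw [h7]
              have h8 : Real.exp 1 ^ 5 ≤ (2.7182818286 : ℝ) ^ 5 := by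
                gcongr
              refine h8.trans ?_
              norm_num
            rw [h2l]
            nlinarith
          exact (Real.log_le_log_iff (w_pos w hzK) (by positivity)).mp h4
        -- the relative norm
        set β : 𝓞 M := Algebra.intNorm (𝓞 M) (𝓞 K) z with hβ
        have hβM : (β : M) = Algebra.norm M (z : K) :=
          Algebra.algebraMap_intNorm (A := 𝓞 M) (K := M) (L := K) (B := 𝓞 K) z
        have hspanβ : Ideal.span {β} =
            (PM q : Ideal (𝓞 M)) ^ (l * e) * (JM p : Ideal (𝓞 M)) ^ (l * e) := by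
          rw [hβ, ← Ideal.relNorm_singleton, hzspan]
          change Ideal.relNorm (𝓞 M) (((PM q : Ideal (𝓞 M)).map φ) ^ l *
            ((JM p : Ideal (𝓞 M)).map φ) ^ l) = _
          rw [map_mul, map_pow, map_pow, Ideal.relNorm_algebraMap, Ideal.relNorm_algebraMap,
            finrank_int, ← he, ← pow_mul, ← pow_mul, mul_comm e l]
        have hle0 : l * e ≠ 0 := (Nat.mul_pos hl he0).ne'
        have hβS : β ∉ S := by
          intro hβS
          obtain ⟨hqp, hPq, hPq', hqP, hqP', hne', hS⟩ := hG q q.2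
          have hPMq : (PM q : Ideal (𝓞 M)) = P q.1 := hPM q
          have h1 : β ∈ P q.1 := by
            rw [← hPMq]
            have h2 : (PM q : Ideal (𝓞 M)) ∣ Ideal.span {β} := by
              rw [hspanβ]
              exact Dvd.dvd.mul_right (dvd_pow_self _ hle0) _
            exact Ideal.le_of_dvd h2 (Ideal.mem_span_singleton_self β)
          have h2 := hS β hβS h1
          have h3 : (PM q : Ideal (𝓞 M)) ^ (l * e) * (JM p : Ideal (𝓞 M)) ^ (l * e) ≤ P' q.1 := by
            rw [← hspanβ, Ideal.span_le, Set.singleton_subset_iff]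
            exact h2
          have hP0 : P q.1 ≠ ⊥ := by
            intro h0
            rw [h0, Ideal.mem_bot] at hqP
            exact hqp.ne_zero (by exact_mod_cast hqP)
          rcases (hPq'.mul_le).mp h3 with h4 | h4
          · have h5 : P q.1 ≤ P' q.1 := by
              rw [← hPMq]
              exact hPq'.le_of_pow_le h4
            exact hne' ((hPq.isMaximal hP0).eq_of_le hPq'.ne_top h5)
          · have h5 : (JM p : Ideal (𝓞 M)) ≤ P' q.1 := hPq'.le_of_pow_le h4
            have h6 : ((p.1 : ℕ) : 𝓞 M) ∈ P' q.1 := by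
              apply h5
              have h7 : Ideal.span {((p.1 : ℕ) : 𝓞 M)} ≤ (JM p : Ideal (𝓞 M)) := by
                rw [← hPJM p]
                exact Ideal.mul_le_right
              exact h7 (Ideal.mem_span_singleton_self _)
            have hcop : IsCoprime ((p.1 : ℕ) : ℤ) ((q.1 : ℕ) : ℤ) := by
              rw [Nat.isCoprime_iff_coprime]
              exact (Nat.coprime_primes (hG p p.2).1 hqp).mpr (fun h => hne (Subtype.ext h))
            obtain ⟨u, w, huw⟩ := hcop
            apply hPq'.ne_top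
            rw [Ideal.eq_top_iff_one]
            have h8 := (P' q.1).add_mem ((P' q.1).mul_mem_left ((u : ℤ) : 𝓞 M) h6)
              ((P' q.1).mul_mem_left ((w : ℤ) : 𝓞 M) hqP')
            have h9 : ((u : ℤ) : 𝓞 M) * ((p.1 : ℕ) : 𝓞 M) + ((w : ℤ) : 𝓞 M) * ((q.1 : ℕ) : 𝓞 M) = 1 := by
              have := congrArg (fun t : ℤ => (t : 𝓞 M)) huw
              push_cast at this
              exact this
            rwa [h9] at h8
        have hβle : ∀ v : InfinitePlace M, v (β : M) ≤ (150 * y : ℝ) ^ (2 * l * e) := by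
          intro v
          rw [hβM, pow_mul]
          exact norm_place_le (z : K) hwz v
        have hyG : y ∈ G := by
          rcases max_choice p.1 q.1 with h | h
          · rw [hy, h]; exact p.2
          · rw [hy, h]; exact q.2
        obtain ⟨v, hv⟩ := hgood y hyG β hβS
        exact absurd (hβle v) (not_le.mpr hv)
      subst hpq
      have hc : c = c' := by
        have hP0 : (PK p : Ideal (𝓞 K)) ≠ 0 := nonZeroDivisors.coe_ne_zero _
        have e1 : Ideal.span {a} * (A c' : Ideal (𝓞 K)) =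
            Ideal.span {b} * (A c : Ideal (𝓞 K)) := by
          rw [← mul_assoc, ← mul_assoc] at hab
          exact mul_right_cancel₀ hP0 hab
        have e2 : ClassGroup.mk0 (A c') = ClassGroup.mk0 (A c) := by
          rw [ClassGroup.mk0_eq_mk0_iff]
          exact ⟨a, b, ha, hb, e1⟩
        rw [hA1, hA1] at e2
        exact Subtype.ext e2.symm
      rw [hc])
  rw [Fintype.card_prod, Fintype.card_coe] at key
  rw [Nat.card_eq_fintype_card]
  push_cast at key
  exact key

end Run7.h673.LU
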