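import Pool.Agent.Run7.h673.LU.InFrob
import Pool.Agent.Run7.h673.LU.EVTwo
import Pool.Agent.Run7.h673.LU.Dich

/-! Many small primes with two factors over a prime of the small subfield. -/

set_option autoImplicit false

namespace Run7.h673.LU

open NumberField Finset IntermediateField Run7.h673.LT Pool.Agent.TH847.LS
open scoped Classical Pointwise

/-- for every normal subgroup `N` of `R` not contained in `H`: no element of `N` is in `Inert H N`, or
`N` and the elements of `Inert H N` do not generate the group -/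
def AdmR {G : Type} [Group G] (H R : Subgroup G) : Prop :=
  ∀ N : Subgroup G, N.Normal → N ≤ R → ¬ N ≤ H →
    (∀ σ ∈ N, σ ∉ Inert H N) ∨ Subgroup.closure (Inert H N ∪ (N : Set G)) ≠ ⊤

theorem inert_conj {G : Type} [Group G] {H N : Subgroup G} (hN : N.Normal) {σ : G}
    (h : σ ∈ Inert H N) (g : G) : g * σ * g⁻¹ ∈ Inert H N := by
  intro ν hν x
  have hν' : g⁻¹ * ν * g ∈ N := by
    have := hN.conj_mem ν hν g⁻¹
    rwa [inv_inv] at this
  obtain ⟨k, hk⟩ := h (g⁻¹ * ν * g) hν' (g⁻¹ • x)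
  refine ⟨k, ?_⟩
  have h1 : (g * σ * g⁻¹) ^ k = g * σ ^ k * g⁻¹ := by
    rw [conj_zpow]
  rw [h1, mul_smul, mul_smul, hk, ← mul_smul, ← mul_smul]
  congr 1
  group

theorem inert_normal {G : Type} [Group G] (H : Subgroup G) {N : Subgroup G} (hN : N.Normal) :
    (Subgroup.closure (Inert H N ∪ (N : Set G))).Normal := by
  refine closure_normal fun x hx g => ?_
  rcases hx with hx | hx
  · left; exact inert_conj hN hx g
  · right; exact hN.conj_mem x hx g

theorem core2 (N : ℕ) (hN1 : 1 ≤ N) : ∃ v z0 : ℕ, 2 ≤ v ∧ 2 ≤ z0 ∧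
    ∀ (E L : Type) [Field E] [NumberField E] [Field L] [NumberField L] [Algebra E L]
      [IsGalois ℚ L], Module.finrank ℚ L = N → ∀ R : Subgroup Gal(L/ℚ), AdmR (fix E L) R →
    ∀ N0 : Subgroup Gal(L/ℚ), N0.Normal → N0 ≤ R → ¬ N0 ≤ fix E L → ∀ B : ℝ, Small N0 B →
    ∀ z : ℕ, z0 ≤ z → B ≤ z →
    (2 * 6 ^ N) ^ 2 * 4 ^ (N + 1) * |(discr (fixedField N0) : ℝ)| ≤ z →
    ∃ G0 : Finset ℕ, (z : ℝ) / (80 * N) ≤ G0.card + 2 * Real.log |(discr E : ℝ)| +
        2 * Real.log |(discr (fixedField N0) : ℝ)| ∧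
      ∀ p ∈ G0, z < p ∧ p ≤ z ^ v ∧ p.Prime ∧ ¬ p ∣ (discr E).natAbs ∧
        ∃ (Q : Ideal (𝓞 L)) (σ : Gal(L/ℚ)), Q.IsPrime ∧ ((p : ℕ) : 𝓞 L) ∈ Q ∧
          (∀ x : 𝓞 L, σ • x - x ^ p ∈ Q) ∧ σ ∉ Inert (fix E L) N0 := by
  choose vf zf hvf hzf hf using fun (r : ℕ) (hr : 2 ≤ r) => many_nonsplit r hr
  obtain ⟨z1, hz1, hin⟩ := many_in N hN1
  let vg : ℕ → ℕ := fun r => if hr : 2 ≤ r then vf r hr else 0
  let zg : ℕ → ℕ := fun r => if hr : 2 ≤ r then zf r hr else 0
  refine ⟨5 * N + ∑ r ∈ range (N + 1), vg r, z1 + ∑ r ∈ range (N + 1), zg r, by omega, by omega, ?_⟩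
  set v := 5 * N + ∑ r ∈ range (N + 1), vg r with hv
  intro E L _ _ _ _ _ _ hN R hgood N0 hN0 hN0R hN0E B hB z hz hBz hzD
  have hNr : (1 : ℝ) ≤ N := by exact_mod_cast hN1
  have hzr0 : (0 : ℝ) ≤ z := Nat.cast_nonneg _
  have habs : ∀ (A : Type) [Field A] [NumberField A], |(discr A : ℝ)| = ((discr A).natAbs : ℝ) := by
    intro A _ _
    rw [Nat.cast_natAbs]
    push_cast
    rfl
  have hne : ∀ (A : Type) [Field A] [NumberField A], (discr A).natAbs ≠ 0 := by
    intro A _ _
    exact Int.natAbs_ne_zero.mpr (discr_ne_zero A)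
  have hz2 : 2 ≤ z := by omega
  have hlog0 : 0 ≤ Real.log |(discr (fixedField N0) : ℝ)| := by
    rw [habs]
    exact Real.log_natCast_nonneg _
  have hlogE0 : 0 ≤ Real.log |(discr E : ℝ)| := by
    rw [habs]
    exact Real.log_natCast_nonneg _
  rcases hgood N0 hN0 hN0R hN0E with hbad | hW
  · -- no bad elements in `N0`
    obtain ⟨G1, hG1card, hG1⟩ := hin L hN N0 B hB z (by omega) hBz
    refine ⟨G1.filter (fun p => ¬ p ∣ (discr E).natAbs), ?_, ?_⟩
    · have h2 := card_filter_dvd G1 (fun p hp => (hG1 p hp).2.2.1) (hne E)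
      rw [← habs] at h2
      linarith
    · intro p hp
      rw [mem_filter] at hp
      obtain ⟨h1, h2, h3, Q, σ, hQ, hpQ, hfr, hσ⟩ := hG1 p hp.1
      exact ⟨h1, h2.trans (Nat.pow_le_pow_right (by omega) (by omega)), h3, hp.2, Q, σ, hQ, hpQ, hfr,
        hbad σ hσ⟩
  · set W := Subgroup.closure (Inert (fix E L) N0 ∪ (N0 : Set Gal(L/ℚ))) with hWdef
    have hWn : W.Normal := inert_normal (fix E L) hN0
    have hN0W : N0 ≤ W := by
      intro x hx
      exact Subgroup.subset_closure (Or.inr hx)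
    -- the degree
    obtain ⟨r, hr⟩ : ∃ r, Module.finrank ℚ (fixedField W) = r := ⟨_, rfl⟩
    have hmul : r * Nat.card W = N := by
      rw [← hr, ← IntermediateField.finrank_fixedField_eq_card W, ← hN]
      exact Module.finrank_mul_finrank ℚ (fixedField W) L
    have hcardW : 0 < Nat.card W := Nat.card_pos
    have hcardG : Nat.card Gal(L/ℚ) = N := by rw [IsGalois.card_aut_eq_finrank, hN]
    have hr0 : 0 < r := by rw [← hr]; exact Module.finrank_pos
    have hr2 : 2 ≤ r := by
      by_contra hcon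
      have hr1 : r = 1 := by omega
      rw [hr1, one_mul] at hmul
      apply hW
      exact Subgroup.eq_top_of_card_eq W (by rw [hmul, hcardG])
    have hrN : r ≤ N := by
      rw [← hmul]
      exact Nat.le_mul_of_pos_right _ hcardW
    -- the discriminant
    have hdF : (discr (fixedField W)).natAbs ≤ (discr (fixedField N0)).natAbs := by
      have hle : fixedField W ≤ fixedField N0 := by
        intro x hx
        rw [IntermediateField.mem_fixedField_iff] at hx ⊢
        exact fun g hg => hx g (hN0W hg)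
      have h1 : discr (fixedField W) ∣ discr (fixedField N0) :=
        discr_le_of_hom (IntermediateField.inclusion hle).toRingHom
      exact Nat.le_of_dvd (Nat.pos_of_ne_zero (hne _)) (Int.natAbs_dvd_natAbs.mpr h1)
    have hdFr : |(discr (fixedField W) : ℝ)| ≤ |(discr (fixedField N0) : ℝ)| := by
      rw [habs, habs]
      exact_mod_cast hdF
    have hvr : vf r hr2 ≤ v := by
      have h1 : vg r ≤ ∑ r ∈ range (N + 1), vg r :=
        Finset.single_le_sum (fun _ _ => Nat.zero_le _) (mem_range.mpr (by omega))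
      have h2 : vg r = vf r hr2 := dif_pos hr2
      omega
    have hzr : zf r hr2 ≤ z := by
      have h1 : zg r ≤ ∑ r ∈ range (N + 1), zg r :=
        Finset.single_le_sum (fun _ _ => Nat.zero_le _) (mem_range.mpr (by omega))
      have h2 : zg r = zf r hr2 := dif_pos hr2
      omega
    have hcond : (2 * 6 ^ r) ^ 2 * 4 ^ (r + 1) * |(discr (fixedField W) : ℝ)| ≤ z := by
      refine le_trans ?_ hzD
      have h1 : (6 : ℝ) ^ r ≤ 6 ^ N := pow_le_pow_right₀ (by norm_num) hrN
      have h2 : (4 : ℝ) ^ (r + 1) ≤ 4 ^ (N + 1) := pow_le_pow_right₀ (by norm_num) (by omega)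
      gcongr
    have h1 := hf r hr2 (fixedField W) hr z hzr hcond
    set G1 := (Finset.Ioc z (z ^ (vf r hr2))).filter
      (fun p => p.Prime ∧ nu (fixedField W) p < r) with hG1
    refine ⟨(G1.filter (fun p => ¬ p ∣ (discr E).natAbs)).filter
      (fun p => ¬ p ∣ (discr (fixedField W)).natAbs), ?_, ?_⟩
    · have h2 := card_filter_dvd G1 (fun p hp => (mem_filter.mp hp).2.1) (hne E)
      have h3 := card_filter_dvd (G1.filter (fun p => ¬ p ∣ (discr E).natAbs))
        (fun p hp => (mem_filter.mp (mem_filter.mp hp).1).2.1) (hne (fixedField W))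
      rw [← habs] at h2 h3
      have h4 : Real.log |(discr (fixedField W) : ℝ)| ≤ Real.log |(discr (fixedField N0) : ℝ)| := by
        refine Real.log_le_log ?_ hdFr
        rw [abs_pos]
        exact_mod_cast discr_ne_zero _
      have h5 : (z : ℝ) / (80 * N) ≤ z / 4 := by
        refine div_le_div_of_nonneg_left hzr0 (by norm_num) ?_
        linarith
      linarith
    · intro p hp
      rw [mem_filter, mem_filter, hG1, mem_filter, Finset.mem_Ioc] at hp
      obtain ⟨⟨⟨⟨hp1, hp2⟩, hp3, hpnu⟩, hp4⟩, hp5⟩ := hp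
      refine ⟨hp1, hp2.trans (Nat.pow_le_pow_right (by omega) hvr), hp3, hp4, ?_⟩
      obtain ⟨Q0, σ0, hQ0, hpQ0, hfr, hall⟩ := exists_frob (L := L) hp3
      refine ⟨Q0, σ0, hQ0, hpQ0, hfr, fun hb => ?_⟩
      have h2 : σ0 ∈ W := Subgroup.subset_closure (Or.inl hb)
      have h3 := nu_of_frob hp3 hfr hall W hWn h2 hr hp5
      omega

/-- the integers of `E` outside the small field are large -/
theorem large_of_notMem {E L : Type} [Field E] [NumberField E] [Field L] [NumberField L]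
    [Algebra E L] {N0 : Subgroup Gal(L/ℚ)} {B : ℝ}
    (h : ∀ U : Subgroup Gal(L/ℚ), fix E L ≤ U → Small U B → N0 ≤ U) (β : 𝓞 E)
    (hβ : algebraMap E L (β : E) ∉ fixedField N0) : ∃ v : InfinitePlace E, B < v (β : E) := by
  by_contra hcon
  push Not at hcon
  apply hβ
  let U : Subgroup Gal(L/ℚ) := MulAction.stabilizer Gal(L/ℚ) (algebraMap E L (β : E))
  have hmem : ∀ g : Gal(L/ℚ), g ∈ U ↔ g (algebraMap E L (β : E)) = algebraMap E L (β : E) := by
    intro g
    exact MulAction.mem_stabilizer_iff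
  have h1 : fix E L ≤ U := by
    intro g hg
    rw [hmem]
    exact mem_fix.mp hg _
  have h2 : Small U B := by
    refine ⟨algebraMap (𝓞 E) (𝓞 L) β, fun g => ?_, fun w => ?_⟩
    · rw [hmem]
      exact Iff.rfl
    · exact hcon (w.comap (algebraMap E L))
  have h3 := h U h1 h2
  rw [IntermediateField.mem_fixedField_iff]
  intro g hg
  exact (hmem g).mp (h3 hg)

end Run7.h673.LU
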