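import Pool.Agent.Run7.h673.LU.Val
import Pool.Agent.Run7.h673.LT.Core

/-! Many small primes whose Frobenius elements are in the group of a small field. -/

set_option autoImplicit false

namespace Run7.h673.LU

open NumberField Finset IsDedekindDomain Run7.h673.LT Pool.Agent.TH847.LS
open Pool.Agent.Helper923.HMertens (mertens_log sum_small_bound)
open scoped Classical Pointwise

variable {L : Type} [Field L] [NumberField L]

theorem prime_dvd_absNorm {Q : Ideal (𝓞 L)} (hQ : Q.IsPrime) {p : ℕ} (hp : p.Prime)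
    (hpQ : ((p : ℕ) : 𝓞 L) ∈ Q) : p ∣ Ideal.absNorm Q := by
  have hdvd : Ideal.absNorm Q ∣ p ^ Module.finrank ℤ (𝓞 L) := by
    rw [← Ideal.absNorm_span_natCast]
    refine Ideal.absNorm_dvd_absNorm_of_le ?_
    rw [Ideal.span_le, Set.singleton_subset_iff]
    exact hpQ
  obtain ⟨f, -, hf⟩ := (Nat.dvd_prime_pow hp).mp hdvd
  have hne1 : Ideal.absNorm Q ≠ 1 := fun h1 => hQ.ne_top (Ideal.absNorm_eq_one_iff.mp h1)
  have hf1 : f ≠ 0 := by
    rintro rfl
    rw [pow_zero] at hf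
    exact hne1 hf
  rw [hf]
  exact dvd_pow_self p hf1

/-- the prime ideals over `p` -/
noncomputable def SP (L : Type) [Field L] [NumberField L] (N p : ℕ) : Finset (Ideal (𝓞 L)) :=
  (FI L (p ^ N)).filter (fun Q => Q.IsPrime ∧ ((p : ℕ) : 𝓞 L) ∈ Q)

theorem mem_SP {N p : ℕ} (hN : Module.finrank ℚ L = N) (hp : p.Prime) {Q : Ideal (𝓞 L)}
    (hQ : Q.IsPrime) (hQ0 : Q ≠ ⊥) (hpQ : ((p : ℕ) : 𝓞 L) ∈ Q) : Q ∈ SP L N p := by
  unfold SP
  rw [mem_filter, mem_FI]
  refine ⟨⟨?_, hQ0⟩, hQ, hpQ⟩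
  have hdvd : Ideal.absNorm Q ∣ p ^ N := by
    have h1 : Ideal.absNorm (Ideal.span {((p : ℕ) : 𝓞 L)}) = p ^ N := by
      rw [Ideal.absNorm_span_natCast, RingOfIntegers.rank, hN]
    rw [← h1]
    refine Ideal.absNorm_dvd_absNorm_of_le ?_
    rw [Ideal.span_le, Set.singleton_subset_iff]
    exact hpQ
  exact Nat.le_of_dvd (pow_pos hp.pos N) hdvd

theorem card_SP {N p : ℕ} (hN : Module.finrank ℚ L = N) (hp : p.Prime) :
    2 ^ (SP L N p).card ≤ p ^ N := by
  have hp0 : Ideal.span {((p : ℕ) : 𝓞 L)} ≠ ⊥ := by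
    rw [Ne, Ideal.span_singleton_eq_bot]
    exact_mod_cast hp.ne_zero
  have hmem : ∀ Q ∈ SP L N p, Q.IsPrime ∧ Q ≠ ⊥ ∧ ((p : ℕ) : 𝓞 L) ∈ Q := by
    intro Q hQ
    unfold SP at hQ
    rw [mem_filter, mem_FI] at hQ
    exact ⟨hQ.2.1, hQ.1.2, hQ.2.2⟩
  have hdvd : ∏ Q ∈ SP L N p, Q ∣ Ideal.span {((p : ℕ) : 𝓞 L)} := by
    refine Finset.prod_primes_dvd _ (fun Q hQ => ?_) (fun Q hQ => ?_)
    · exact Ideal.prime_of_isPrime (hmem Q hQ).2.1 (hmem Q hQ).1
    · rw [Ideal.dvd_iff_le, Ideal.span_le, Set.singleton_subset_iff]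
      exact (hmem Q hQ).2.2
  have h1 : Ideal.absNorm (∏ Q ∈ SP L N p, Q) ∣ p ^ N := by
    have h2 : Ideal.absNorm (Ideal.span {((p : ℕ) : 𝓞 L)}) = p ^ N := by
      rw [Ideal.absNorm_span_natCast, RingOfIntegers.rank, hN]
    rw [← h2]
    exact map_dvd Ideal.absNorm hdvd
  calc 2 ^ (SP L N p).card ≤ ∏ Q ∈ SP L N p, Ideal.absNorm Q := by
        refine Finset.pow_card_le_prod _ _ _ fun Q hQ => ?_
        have h3 := Nat.le_of_dvd (absNorm_pos (hmem Q hQ).2.1)
          (prime_dvd_absNorm (hmem Q hQ).1 hp (hmem Q hQ).2.2)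
        exact hp.two_le.trans h3
    _ = Ideal.absNorm (∏ Q ∈ SP L N p, Q) := (map_prod _ _ _).symm
    _ ≤ p ^ N := Nat.le_of_dvd (pow_pos hp.pos N) h1

theorem prod_places_pow (x : L) {N : ℕ} (hN : Module.finrank ℚ L = N) {a : ℝ} (ha : 0 ≤ a)
    (h : ∀ w : InfinitePlace L, a ≤ w x) : a ^ N ≤ |((Algebra.norm ℚ x : ℚ) : ℝ)| := by
  have h1 := InfinitePlace.prod_eq_abs_norm x
  have h2 : |((Algebra.norm ℚ x : ℚ) : ℝ)| = ∏ w : InfinitePlace L, w x ^ w.mult := by
    rw [h1]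
    push_cast
    rfl
  rw [h2, ← hN, ← InfinitePlace.sum_mult_eq, ← Finset.prod_pow_eq_pow_sum]
  exact Finset.prod_le_prod (fun w _ => pow_nonneg ha _) fun w _ => pow_le_pow_left₀ ha (h w) _

theorem prod_places_pow' (x : L) {N : ℕ} (hN : Module.finrank ℚ L = N) {a : ℝ}
    (h : ∀ w : InfinitePlace L, w x ≤ a) : |((Algebra.norm ℚ x : ℚ) : ℝ)| ≤ a ^ N := by
  have h1 := InfinitePlace.prod_eq_abs_norm x
  have h2 : |((Algebra.norm ℚ x : ℚ) : ℝ)| = ∏ w : InfinitePlace L, w x ^ w.mult := by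
    rw [h1]
    push_cast
    rfl
  rw [h2, ← hN, ← InfinitePlace.sum_mult_eq, ← Finset.prod_pow_eq_pow_sum]
  exact Finset.prod_le_prod (fun w _ => pow_nonneg (apply_nonneg w x) _) fun w _ =>
    pow_le_pow_left₀ (apply_nonneg w x) (h w) _

theorem natAbs_norm_eq (x : 𝓞 L) :
    (((Algebra.norm ℤ x).natAbs : ℕ) : ℝ) = |((Algebra.norm ℚ (x : L) : ℚ) : ℝ)| := by
  rw [← Algebra.coe_norm_int, Nat.cast_natAbs]
  push_cast
  rfl

omit [NumberField L] in
theorem place_natCast (w : InfinitePlace L) (m : ℕ) : w ((m : ℕ) : L) = m := by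
  rw [← InfinitePlace.norm_embedding_eq, map_natCast, Complex.norm_natCast]

theorem div_of_val {a b : 𝓞 L} (hb : b ≠ 0)
    (h : ∀ v : HeightOneSpectrum (𝓞 L), v.intValuation a ≤ v.intValuation b) : b ∣ a := by
  have hbL : (b : L) ≠ 0 := by exact_mod_cast hb
  have h1 : ∀ v : HeightOneSpectrum (𝓞 L), v.valuation L ((a : L) / (b : L)) ≤ 1 := by
    intro v
    rw [map_div₀]
    have h2 : v.valuation L (a : L) = v.intValuation a := v.valuation_of_algebraMap a
    have h3 : v.valuation L (b : L) = v.intValuation b := v.valuation_of_algebraMap b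
    rw [h2, h3]
    have h4 : 0 < v.intValuation b := by
      rw [zero_lt_iff]
      exact v.intValuation_ne_zero b hb
    exact div_le_one_of_le₀ (h v) h4.le
  obtain ⟨y, hy⟩ := HeightOneSpectrum.mem_integers_of_valuation_le_one L _ h1
  refine ⟨y, ?_⟩
  apply RingOfIntegers.ext
  have h5 : ((y : 𝓞 L) : L) = (a : L) / (b : L) := hy
  have h6 : ((b * y : 𝓞 L) : L) = (b : L) * (y : L) := by push_cast; rfl
  rw [h6, h5, mul_div_cancel₀ _ hbL]



/-- many primes with a prime ideal over them which contains an element `2 z + t - θ` -/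
theorem many_div (N : ℕ) (hN1 : 1 ≤ N) : ∃ z0 : ℕ, 4 ≤ z0 ∧
    ∀ (L : Type) [Field L] [NumberField L], Module.finrank ℚ L = N →
    ∀ θ : 𝓞 L, ∀ z : ℕ, z0 ≤ z → (∀ w : InfinitePlace L, w (θ : L) ≤ z) →
    ∃ G0 : Finset ℕ, (z : ℝ) / (40 * N) ≤ G0.card ∧
      ∀ p ∈ G0, z < p ∧ p ≤ z ^ (5 * N) ∧ p.Prime ∧
        ∃ (a : ℕ) (Q : Ideal (𝓞 L)), Q.IsPrime ∧ ((p : ℕ) : 𝓞 L) ∈ Q ∧ ((a : ℕ) : 𝓞 L) - θ ∈ Q := by
  obtain ⟨C1, hC1⟩ := mertens_log
  obtain ⟨C2, hC20, hC2⟩ := sum_small_bound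
  have hev : ∀ᶠ z : ℕ in Filter.atTop, C1 + C2 + 1 < (3 / 8) * Real.log z := by
    have h1 : Filter.Tendsto (fun z : ℕ => (3 / 8) * Real.log z) Filter.atTop Filter.atTop :=
      (Real.tendsto_log_atTop.comp tendsto_natCast_atTop_atTop).const_mul_atTop (by norm_num)
    exact h1.eventually_gt_atTop _
  obtain ⟨z1, hz1⟩ := Filter.eventually_atTop.mp hev
  refine ⟨z1 + 13 * N + 4, by omega, ?_⟩
  intro L _ _ hN θ z hz hθ
  have hz4 : 4 ≤ z := by omega
  have hz13 : 13 * N ≤ z := by omega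
  have hzlog := hz1 z (by omega)
  have hzr : (4 : ℝ) ≤ z := by exact_mod_cast hz4
  have hz0 : (0 : ℝ) < z := by linarith
  have hNr : (1 : ℝ) ≤ N := by exact_mod_cast hN1
  set X : ℕ := z ^ 4 with hX
  have hXr : (X : ℝ) = (z : ℝ) ^ 4 := by rw [hX]; push_cast; rfl
  have hX0 : (0 : ℝ) < X := by rw [hXr]; positivity
  set c : ℕ := 2 * z with hc
  set α : ℕ → 𝓞 L := fun t => ((c + t : ℕ) : 𝓞 L) - θ with hα
  have hαL : ∀ t, ((α t : 𝓞 L) : L) = ((c + t : ℕ) : L) - (θ : L) := by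
    intro t
    rw [hα]
    push_cast
    rfl
  have hlow : ∀ t : ℕ, ∀ w : InfinitePlace L, (t : ℝ) ≤ w (α t : L) := by
    intro t w
    have h1 : ((c + t : ℕ) : L) = (α t : L) + (θ : L) := by rw [hαL]; ring
    have h2 : w ((c + t : ℕ) : L) ≤ w (α t : L) + w (θ : L) := by
      rw [h1]
      exact AbsoluteValue.add_le w.1 _ _
    rw [place_natCast] at h2
    have h3 := hθ w
    rw [hc] at h2
    push_cast at h2
    linarith
  have hup : ∀ t ∈ Finset.Icc 1 X, ∀ w : InfinitePlace L, w (α t : L) ≤ (z : ℝ) ^ 5 := by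
    intro t ht w
    rw [Finset.mem_Icc] at ht
    have h2 : w (α t : L) ≤ w ((c + t : ℕ) : L) + w (θ : L) := by
      have h3 : (α t : L) = ((c + t : ℕ) : L) + (-(θ : L)) := by rw [hαL]; ring
      rw [h3]
      refine (AbsoluteValue.add_le w.1 _ _).trans (le_of_eq ?_)
      congr 1
      exact AbsoluteValue.map_neg w.1 _
    rw [place_natCast] at h2
    have h3 := hθ w
    have h4 : (t : ℝ) ≤ (z : ℝ) ^ 4 := by rw [← hXr]; exact_mod_cast ht.2
    rw [hc] at h2
    push_cast at h2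
    have h5 : (z : ℝ) ^ 5 = z * (z : ℝ) ^ 4 := by ring
    have h6 : (z : ℝ) ≤ (z : ℝ) ^ 4 := by
      calc (z : ℝ) = (z : ℝ) ^ 1 := (pow_one _).symm
        _ ≤ (z : ℝ) ^ 4 := pow_le_pow_right₀ (by linarith) (by norm_num)
    nlinarith
  have hα0 : ∀ t ∈ Finset.Icc 1 X, α t ≠ 0 := by
    intro t ht h
    rw [Finset.mem_Icc] at ht
    obtain ⟨w⟩ : Nonempty (InfinitePlace L) := inferInstance
    have h1 := hlow t w
    rw [h] at h1
    have h2 : w ((0 : 𝓞 L) : L) = 0 := by simp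
    rw [h2] at h1
    have : (1 : ℝ) ≤ t := by exact_mod_cast ht.1
    linarith
  -- the large primes
  set G := (Finset.Ioc z (z ^ (5 * N))).filter (fun p => p.Prime ∧ ∃ t ∈ Finset.Icc 1 X,
    ∃ Q : Ideal (𝓞 L), Q.IsPrime ∧ ((p : ℕ) : 𝓞 L) ∈ Q ∧ α t ∈ Q) with hG
  have hmemG : ∀ p, p ∈ G ↔ (z < p ∧ p ≤ z ^ (5 * N)) ∧ p.Prime ∧ ∃ t ∈ Finset.Icc 1 X,
      ∃ Q : Ideal (𝓞 L), Q.IsPrime ∧ ((p : ℕ) : 𝓞 L) ∈ Q ∧ α t ∈ Q := by
    intro p
    rw [hG, mem_filter, Finset.mem_Ioc]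
  refine ⟨G, ?_, ?_⟩
  swap
  · intro p hp
    rw [hmemG] at hp
    obtain ⟨⟨h1, h2⟩, h3, t, -, Q, h4, h5, h6⟩ := hp
    exact ⟨h1, h2, h3, c + t, Q, h4, h5, h6⟩
  by_contra hcon
  push Not at hcon
  have hgz : (G.card : ℝ) < z := by
    refine hcon.trans_le ?_
    rw [div_le_iff₀ (by positivity)]
    nlinarith
  set T : Finset ℕ := (Finset.Icc 1 z).filter Nat.Prime ∪ G with hT
  have hTp : ∀ q ∈ T, q.Prime := by
    intro q hq
    rw [hT, Finset.mem_union, mem_filter] at hq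
    rcases hq with h | h
    · exact h.2
    · exact ((hmemG q).mp h).2.1
  have hTle : ∀ q ∈ T, q ≤ z ^ (5 * N) := by
    intro q hq
    rw [hT, Finset.mem_union, mem_filter, Finset.mem_Icc] at hq
    rcases hq with h | h
    · exact h.1.2.trans (Nat.le_self_pow (by omega) z)
    · exact ((hmemG q).mp h).1.2
  have hTcard : (T.card : ℝ) ≤ 2 * z := by
    have h1 : T.card ≤ ((Finset.Icc 1 z).filter Nat.Prime).card + G.card := Finset.card_union_le _ _
    have h2 : ((Finset.Icc 1 z).filter Nat.Prime).card ≤ z := by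
      refine (Finset.card_filter_le _ _).trans ?_
      rw [Nat.card_Icc]
      omega
    have h3 : (T.card : ℝ) ≤ (z : ℝ) + G.card := by
      have : T.card ≤ z + G.card := by omega
      exact_mod_cast this
    linarith
  -- the indices
  have hτ : ∀ v : HeightOneSpectrum (𝓞 L), ∃ t0 ∈ Finset.Icc 1 X, ∀ t ∈ Finset.Icc 1 X,
      v.intValuation (α t0) ≤ v.intValuation (α t) := by
    intro v
    refine Finset.exists_min_image _ _ ⟨1, ?_⟩
    rw [Finset.mem_Icc]
    exact ⟨le_rfl, Nat.one_le_pow _ _ (by omega)⟩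
  choose τ hτ1 hτ2 using hτ
  let τ' : Ideal (𝓞 L) → ℕ := fun Q => if h : Q.IsPrime ∧ Q ≠ ⊥ then τ ⟨Q, h.1, h.2⟩ else 1
  set R : Finset ℕ := T.biUnion (fun p => (SP L N p).image τ') with hR
  have hRmem : ∀ (v : HeightOneSpectrum (𝓞 L)) (p : ℕ), p ∈ T → ((p : ℕ) : 𝓞 L) ∈ v.asIdeal →
      τ v ∈ R := by
    intro v p hp hpv
    rw [hR, Finset.mem_biUnion]
    refine ⟨p, hp, ?_⟩
    rw [Finset.mem_image]
    refine ⟨v.asIdeal, mem_SP hN (hTp p hp) v.isPrime v.ne_bot hpv, ?_⟩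
    exact dif_pos ⟨v.isPrime, v.ne_bot⟩
  have hlogz : Real.log z ≤ z := Real.log_le_self hz0.le
  have hRcard : (R.card : ℝ) ≤ (z : ℝ) ^ 4 / 8 := by
    have h1 : (R.card : ℝ) ≤ ∑ p ∈ T, ((SP L N p).card : ℝ) := by
      have h2 : R.card ≤ ∑ p ∈ T, (SP L N p).card :=
        Finset.card_biUnion_le.trans (Finset.sum_le_sum fun p _ => Finset.card_image_le)
      exact_mod_cast h2
    have h2 : ∀ p ∈ T, ((SP L N p).card : ℝ) ≤ 10 * (N : ℝ) ^ 2 * z := by
      intro p hp
      have h3 := card_SP (L := L) hN (hTp p hp)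
      have h4 : (2 : ℝ) ^ (SP L N p).card ≤ ((z : ℝ) ^ (5 * N)) ^ N := by
        have h5 : p ^ N ≤ (z ^ (5 * N)) ^ N := Nat.pow_le_pow_left (hTle p hp) N
        exact_mod_cast h3.trans h5
      have h5 := Real.log_le_log (by positivity) h4
      rw [Real.log_pow, Real.log_pow, Real.log_pow] at h5
      have h6 := Real.log_two_gt_d9
      push_cast at h5
      have h7 : (0 : ℝ) ≤ (SP L N p).card := Nat.cast_nonneg _
      have h8 : (N : ℝ) * (5 * N * Real.log z) ≤ N * (5 * N * z) := by gcongr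
      nlinarith
    calc (R.card : ℝ) ≤ ∑ p ∈ T, ((SP L N p).card : ℝ) := h1
      _ ≤ ∑ _p ∈ T, 10 * (N : ℝ) ^ 2 * z := Finset.sum_le_sum h2
      _ = T.card * (10 * (N : ℝ) ^ 2 * z) := by rw [Finset.sum_const, nsmul_eq_mul]
      _ ≤ (2 * z) * (10 * (N : ℝ) ^ 2 * z) := by gcongr
      _ ≤ (z : ℝ) ^ 4 / 8 := by
          have h3 : (13 * N : ℝ) ≤ z := by exact_mod_cast hz13
          have h4 : (13 * N : ℝ) ^ 2 ≤ (z : ℝ) ^ 2 := pow_le_pow_left₀ (by positivity) h3 2
          have h5 : (z : ℝ) ^ 4 = (z : ℝ) ^ 2 * (z : ℝ) ^ 2 := by ring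
          have h6 : (0 : ℝ) ≤ (z : ℝ) ^ 2 := by positivity
          nlinarith
  set A : Finset ℕ := (Finset.Ioc (X / 2) X) \ R with hA
  have hAmem : ∀ t ∈ A, X / 2 < t ∧ t ≤ X ∧ t ∉ R := by
    intro t ht
    rw [hA, Finset.mem_sdiff, Finset.mem_Ioc] at ht
    exact ⟨ht.1.1, ht.1.2, ht.2⟩
  have hAsub : A ⊆ Finset.Icc 1 X := by
    intro t ht
    have h1 := hAmem t ht
    rw [Finset.mem_Icc]
    omega
  have hAcard : (3 / 8) * (X : ℝ) ≤ A.card := by
    have h1 := Finset.le_card_sdiff R (Finset.Ioc (X / 2) X)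
    rw [Nat.card_Ioc, ← hA] at h1
    have h2 : X ≤ 2 * (X - X / 2) := by omega
    have h3 : ((X - X / 2 : ℕ) : ℝ) ≤ (A.card : ℝ) + R.card := by
      have : X - X / 2 ≤ A.card + R.card := by omega
      exact_mod_cast this
    have h4 : (X : ℝ) ≤ 2 * ((X - X / 2 : ℕ) : ℝ) := by exact_mod_cast h2
    rw [hXr] at h4 ⊢
    linarith
  -- the divisibility
  set F : ℕ := (X - 1).factorial with hF
  have hF0 : F ≠ 0 := Nat.factorial_ne_zero _
  set F' : ℕ := ∏ q ∈ T, q ^ F.factorization q with hF'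
  have hF'0 : F' ≠ 0 := Finset.prod_ne_zero_iff.mpr fun q hq => pow_ne_zero _ (hTp q hq).ne_zero
  set P : 𝓞 L := ∏ t ∈ A, α t with hP
  have hP0 : P ≠ 0 := Finset.prod_ne_zero_iff.mpr fun t ht => hα0 t (hAsub ht)
  have hval : ∀ v : HeightOneSpectrum (𝓞 L), v.intValuation ((F' : ℕ) : 𝓞 L) ≤ v.intValuation P := by
    intro v
    obtain ⟨p, hp, hpv⟩ := exists_prime_mem v.isPrime v.ne_bot
    by_cases hpT : p ∈ T
    · rw [hF', val_part v hp hpv T hTp hpT hF0]
      have h1 := Finset.mem_Icc.mp (hτ1 v)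
      refine val_factorial_le v θ c X h1.1 h1.2 (hτ2 v) A hAsub ?_
      intro h2
      exact (hAmem _ h2).2.2 (hRmem v p hpT hpv)
    · refine (v.intValuation_le_one _).trans (le_of_eq ?_)
      symm
      rw [HeightOneSpectrum.intValuation_eq_one_iff, hP]
      intro hmem
      rw [Ideal.IsPrime.prod_mem_iff] at hmem
      obtain ⟨t, ht, htv⟩ := hmem
      apply hpT
      have h1 : p ≤ z ^ (5 * N) := by
        have h2 : p ∣ (Algebra.norm ℤ (α t)).natAbs := by
          rw [← Ideal.absNorm_span_singleton]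
          refine (prime_dvd_absNorm v.isPrime hp hpv).trans (Ideal.absNorm_dvd_absNorm_of_le ?_)
          rw [Ideal.span_le, Set.singleton_subset_iff]
          exact htv
        have h3 : (Algebra.norm ℤ (α t)).natAbs ≠ 0 := by
          rw [Int.natAbs_ne_zero, Ne, Algebra.norm_eq_zero_iff]
          exact hα0 t (hAsub ht)
        have h4 := Nat.le_of_dvd (Nat.pos_of_ne_zero h3) h2
        have h5 : (((Algebra.norm ℤ (α t)).natAbs : ℕ) : ℝ) ≤ ((z : ℝ) ^ 5) ^ N := by
          rw [natAbs_norm_eq]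
          exact prod_places_pow' _ hN (hup t (hAsub ht))
        have h6 : (p : ℝ) ≤ ((z ^ (5 * N) : ℕ) : ℝ) := by
          push_cast
          rw [pow_mul]
          exact (by exact_mod_cast h4 : (p : ℝ) ≤ _).trans h5
        exact_mod_cast h6
      rw [hT, Finset.mem_union, mem_filter, Finset.mem_Icc]
      rcases Nat.lt_or_ge z p with h2 | h2
      · right
        rw [hmemG]
        exact ⟨⟨h2, h1⟩, hp, t, hAsub ht, v.asIdeal, v.isPrime, hpv, htv⟩
      · left
        exact ⟨⟨hp.one_lt.le, h2⟩, hp⟩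
  obtain ⟨y, hy⟩ := div_of_val hP0 hval
  -- norms
  have hnorm : (∏ t ∈ A, (((Algebra.norm ℤ (α t)).natAbs : ℕ) : ℝ)) ≤ (F' : ℝ) ^ N := by
    have h1 : (Algebra.norm ℤ P).natAbs ∣ F' ^ N := by
      have h2 : (Algebra.norm ℤ ((F' : ℕ) : 𝓞 L)).natAbs = F' ^ N := by
        rw [← Ideal.absNorm_span_singleton, Ideal.absNorm_span_natCast, RingOfIntegers.rank, hN]
      rw [← h2, hy, map_mul, Int.natAbs_mul]
      exact Dvd.intro _ rfl
    have h3 := Nat.le_of_dvd (pow_pos (Nat.pos_of_ne_zero hF'0) N) h1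
    have h4 : (Algebra.norm ℤ P).natAbs = ∏ t ∈ A, (Algebra.norm ℤ (α t)).natAbs := by
      rw [hP, map_prod]
      exact map_prod Int.natAbsHom _ _
    rw [h4] at h3
    exact_mod_cast h3
  have hlowN : ∀ t ∈ A, ((X : ℝ) / 2) ^ N ≤ (((Algebra.norm ℤ (α t)).natAbs : ℕ) : ℝ) := by
    intro t ht
    have h1 := hAmem t ht
    have h2 : (X : ℝ) / 2 ≤ t := by
      have h3 : X ≤ 2 * t := by omega
      have h4 : (X : ℝ) ≤ 2 * t := by exact_mod_cast h3
      linarith
    rw [natAbs_norm_eq]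
    refine prod_places_pow _ hN (by positivity) fun w => h2.trans (hlow t w)
  have hmain : (((X : ℝ) / 2) ^ N) ^ A.card ≤ (F' : ℝ) ^ N := by
    refine le_trans ?_ hnorm
    rw [← Finset.prod_const]
    exact Finset.prod_le_prod (fun _ _ => by positivity) hlowN
  have hX2 : (1 : ℝ) < X / 2 := by
    rw [hXr]
    have h1 : (4 : ℝ) ^ 4 ≤ (z : ℝ) ^ 4 := pow_le_pow_left₀ (by norm_num) hzr 4
    norm_num at h1
    linarith
  have hF'r : (0 : ℝ) < F' := by exact_mod_cast Nat.pos_of_ne_zero hF'0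
  have hlog1 : (A.card : ℝ) * Real.log (X / 2) ≤ Real.log F' := by
    have h1 := Real.log_le_log (by positivity) hmain
    rw [Real.log_pow, Real.log_pow, Real.log_pow] at h1
    have h2 : (N : ℝ) * ((A.card : ℝ) * Real.log (X / 2)) ≤ N * Real.log F' := by linarith
    exact le_of_mul_le_mul_left h2 (by linarith)
  have hlogF' : Real.log F' = ∑ q ∈ T, (F.factorization q : ℝ) * Real.log q := by
    rw [hF']
    push_cast
    rw [Real.log_prod]
    · exact Finset.sum_congr rfl fun q _ => Real.log_pow _ _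
    · intro q hq
      exact pow_ne_zero _ (by exact_mod_cast (hTp q hq).ne_zero)
  have hleg : ∀ q : ℕ, q.Prime → ((q : ℝ) - 1) * (F.factorization q : ℝ) ≤ X := by
    intro q hq
    have hf : Fact q.Prime := ⟨hq⟩
    have h1 := sub_one_mul_padicValNat_factorial (p := q) (X - 1)
    have h2 : (q - 1) * F.factorization q ≤ X := by
      rw [Nat.factorization_def _ hq, hF, h1]
      omega
    have h3 : (((q - 1) * F.factorization q : ℕ) : ℝ) ≤ X := by exact_mod_cast h2
    rw [Nat.cast_mul, Nat.cast_sub hq.one_lt.le, Nat.cast_one] at h3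
    exact h3
  have hterm : ∀ q : ℕ, q.Prime → (F.factorization q : ℝ) * Real.log q ≤
      X * (Real.log q / (q - 1)) := by
    intro q hq
    have h1 := hleg q hq
    have h2 : (1 : ℝ) < q := by exact_mod_cast hq.one_lt
    have h3 : (F.factorization q : ℝ) ≤ X / (q - 1) := by
      rw [le_div_iff₀ (by linarith)]
      linarith
    have h4 : 0 ≤ Real.log q := Real.log_nonneg h2.le
    calc (F.factorization q : ℝ) * Real.log q ≤ X / (q - 1) * Real.log q := by gcongr
      _ = _ := by ring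
  have hsmall : ∑ q ∈ (Finset.Icc 1 z).filter Nat.Prime, (F.factorization q : ℝ) * Real.log q ≤
      X * (Real.log z + C1 + C2) := by
    have h1 := (abs_le.mp (hC1 z (by omega))).2
    have h2 := hC2 z
    have h3 : ∀ q ∈ (Finset.Icc 1 z).filter Nat.Prime,
        (F.factorization q : ℝ) * Real.log q ≤
          X * (Real.log q / q) + X * (Real.log q / (q * (q - 1))) := by
      intro q hq
      have hq' := (mem_filter.mp hq).2
      have h4 : (1 : ℝ) < q := by exact_mod_cast hq'.one_lt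
      refine (hterm q hq').trans (le_of_eq ?_)
      have h5 : (q : ℝ) - 1 ≠ 0 := by linarith
      have h6 : (q : ℝ) ≠ 0 := by linarith
      field_simp
      ring
    calc ∑ q ∈ (Finset.Icc 1 z).filter Nat.Prime, (F.factorization q : ℝ) * Real.log q
        ≤ ∑ q ∈ (Finset.Icc 1 z).filter Nat.Prime,
          (X * (Real.log q / q) + X * (Real.log q / (q * (q - 1)))) := Finset.sum_le_sum h3
      _ = X * ∑ q ∈ (Finset.Icc 1 z).filter Nat.Prime, Real.log q / q +
          X * ∑ q ∈ (Finset.Icc 1 z).filter Nat.Prime, Real.log q / (q * (q - 1)) := by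
          rw [Finset.sum_add_distrib, Finset.mul_sum, Finset.mul_sum]
      _ ≤ X * (Real.log z + C1) + X * C2 := by
          have h7 : ∑ q ∈ (Finset.Icc 1 z).filter Nat.Prime, Real.log q / q ≤ Real.log z + C1 := by
            linarith
          gcongr
      _ = _ := by ring
  have hlarge : ∑ q ∈ G, (F.factorization q : ℝ) * Real.log q ≤ X * (Real.log z / 8) := by
    have h1 : ∀ q ∈ G, (F.factorization q : ℝ) * Real.log q ≤ X * (5 * N * Real.log z / z) := by
      intro q hq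
      obtain ⟨⟨h2, h3⟩, hq', -⟩ := (hmemG q).mp hq
      refine (hterm q hq').trans ?_
      have h4 : (z : ℝ) ≤ q - 1 := by
        have : z + 1 ≤ q := h2
        have : ((z : ℝ) + 1) ≤ q := by exact_mod_cast this
        linarith
      have h5 : Real.log q ≤ 5 * N * Real.log z := by
        have h6 : (q : ℝ) ≤ (z : ℝ) ^ (5 * N) := by exact_mod_cast h3
        have h7 := Real.log_le_log (by exact_mod_cast hq'.pos) h6
        rw [Real.log_pow] at h7
        push_cast at h7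
        exact h7
      have h8 : 0 ≤ Real.log q := Real.log_nonneg (by exact_mod_cast hq'.one_lt.le)
      have h9 : Real.log q / (q - 1) ≤ 5 * N * Real.log z / z := by
        calc Real.log q / (q - 1) ≤ Real.log q / z := by
              exact div_le_div_of_nonneg_left h8 hz0 h4
          _ ≤ 5 * N * Real.log z / z := by gcongr
      gcongr
    calc ∑ q ∈ G, (F.factorization q : ℝ) * Real.log q
        ≤ ∑ _q ∈ G, X * (5 * N * Real.log z / z) := Finset.sum_le_sum h1
      _ = G.card * (X * (5 * N * Real.log z / z)) := by rw [Finset.sum_const, nsmul_eq_mul]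
      _ ≤ (z / (40 * N)) * (X * (5 * N * Real.log z / z)) := by
          have h2 : 0 ≤ Real.log z := Real.log_nonneg (by linarith)
          have := hcon.le
          gcongr
      _ = X * (Real.log z / 8) := by
          have h3 : (N : ℝ) ≠ 0 := by linarith
          field_simp
          ring
  have hsum : Real.log F' ≤ X * (Real.log z + C1 + C2) + X * (Real.log z / 8) := by
    rw [hlogF', hT]
    have hnn : ∀ q ∈ (Finset.Icc 1 z).filter Nat.Prime ∪ G,
        0 ≤ (F.factorization q : ℝ) * Real.log q := by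
      intro q hq
      have h1 := hTp q hq
      exact mul_nonneg (Nat.cast_nonneg _) (Real.log_nonneg (by exact_mod_cast h1.one_lt.le))
    have h1 := Finset.sum_union_inter (s₁ := (Finset.Icc 1 z).filter Nat.Prime) (s₂ := G)
      (f := fun q => (F.factorization q : ℝ) * Real.log q)
    have h2 : 0 ≤ ∑ q ∈ (Finset.Icc 1 z).filter Nat.Prime ∩ G,
        (F.factorization q : ℝ) * Real.log q := by
      refine Finset.sum_nonneg fun q hq => hnn q ?_
      rw [Finset.mem_inter] at hq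
      exact Finset.mem_union_left _ hq.1
    linarith
  have hlogX : Real.log (X / 2) = 4 * Real.log z - Real.log 2 := by
    rw [Real.log_div hX0.ne' (by norm_num), hXr, Real.log_pow]
    push_cast
    ring
  have hfin : (3 / 8) * (X : ℝ) * (4 * Real.log z - Real.log 2) ≤
      X * (Real.log z + C1 + C2) + X * (Real.log z / 8) := by
    rw [← hlogX]
    refine le_trans ?_ (hlog1.trans hsum)
    have : 0 ≤ Real.log (X / 2) := Real.log_nonneg hX2.le
    gcongr
  have hl2 := Real.log_two_lt_d9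
  have h1 : (X : ℝ) * ((3 / 8) * (4 * Real.log z - Real.log 2)) ≤
      X * (Real.log z + C1 + C2 + Real.log z / 8) := by linarith
  have h2 := le_of_mul_le_mul_left h1 hX0
  linarith

end Run7.h673.LU
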