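import Pool.Agent.Run7.h673.LU.In

/-! Many small primes whose Frobenius elements are in the group of a small field. -/

set_option autoImplicit false

namespace Run7.h673.LU

open NumberField Finset IsDedekindDomain Run7.h673.LT Pool.Agent.TH847.LS
open scoped Classical Pointwise

/-- many primes with a Frobenius element in `U`, if the fixed field of `U` is small -/
theorem many_in (N : ℕ) (hN1 : 1 ≤ N) : ∃ z0 : ℕ, 4 ≤ z0 ∧
    ∀ (L : Type) [Field L] [NumberField L] [IsGalois ℚ L], Module.finrank ℚ L = N →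
    ∀ (U : Subgroup Gal(L/ℚ)) (B : ℝ), Small U B → ∀ z : ℕ, z0 ≤ z → B ≤ z →
    ∃ G0 : Finset ℕ, (z : ℝ) / (80 * N) ≤ G0.card ∧
      ∀ p ∈ G0, z < p ∧ p ≤ z ^ (5 * N) ∧ p.Prime ∧
        ∃ (Q : Ideal (𝓞 L)) (σ : Gal(L/ℚ)), Q.IsPrime ∧ ((p : ℕ) : 𝓞 L) ∈ Q ∧
          (∀ x : 𝓞 L, σ • x - x ^ p ∈ Q) ∧ σ ∈ U := by
  obtain ⟨z0, hz04, hdiv⟩ := many_div N hN1
  have hNr : (1 : ℝ) ≤ N := by exact_mod_cast hN1
  have hev : ∀ᶠ z : ℕ in Filter.atTop, 4 * (N : ℝ) ^ 2 * Real.log z ≤ z / (80 * N) := by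
    have h1 := (isLittleO_log_rpow_atTop (show (0 : ℝ) < 1 by norm_num)).def
      (show (0 : ℝ) < 1 / (320 * (N : ℝ) ^ 3) by positivity)
    have h2 := tendsto_natCast_atTop_atTop (R := ℝ) |>.eventually h1
    filter_upwards [h2, Filter.eventually_ge_atTop 1] with z hz hz1
    have hzr : (1 : ℝ) ≤ z := by exact_mod_cast hz1
    rw [Real.norm_of_nonneg (Real.log_nonneg hzr), Real.rpow_one, Real.norm_of_nonneg (by linarith)]
      at hz
    calc 4 * (N : ℝ) ^ 2 * Real.log z ≤ 4 * (N : ℝ) ^ 2 * (1 / (320 * (N : ℝ) ^ 3) * z) := by gcongr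
      _ = (z : ℝ) / (80 * N) := by
          field_simp
          ring
  obtain ⟨z1, hz1⟩ := Filter.eventually_atTop.mp hev
  refine ⟨z0 + z1, by omega, ?_⟩
  intro L _ _ _ hN U B hU z hz hBz
  obtain ⟨θ, hθ1, hθ2⟩ := hU
  have hz4 : (4 : ℝ) ≤ z := by
    have : 4 ≤ z := by omega
    exact_mod_cast this
  have hzlog := hz1 z (by omega)
  obtain ⟨G1, hG1card, hG1⟩ := hdiv L hN θ z (by omega) (fun w => (hθ2 w).trans hBz)
  -- the differences of conjugates
  set W : Finset Gal(L/ℚ) := Finset.univ.filter (fun g => g ∉ U) with hW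
  set Δ : 𝓞 L := ∏ g ∈ W, (g • θ - θ) with hΔ
  have hΔ0 : Δ ≠ 0 := by
    refine Finset.prod_ne_zero_iff.mpr fun g hg h => ?_
    rw [hW, mem_filter] at hg
    apply hg.2
    rw [← hθ1]
    have h1 := sub_eq_zero.mp h
    exact congrArg (fun t : 𝓞 L => (t : L)) h1
  set D : ℕ := (Algebra.norm ℤ Δ).natAbs with hD
  have hD0 : D ≠ 0 := by
    rw [hD, Int.natAbs_ne_zero, Ne, Algebra.norm_eq_zero_iff]
    exact hΔ0
  have hWcard : W.card ≤ N := by
    refine (Finset.card_filter_le _ _).trans ?_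
    rw [Finset.card_univ, ← Nat.card_eq_fintype_card, IsGalois.card_aut_eq_finrank, hN]
  have hlogD : Real.log D ≤ (N : ℝ) ^ 2 * (2 * Real.log z) := by
    have h1 : (D : ℝ) ≤ (((z : ℝ) ^ 2) ^ N) ^ N := by
      rw [hD, natAbs_norm_eq]
      refine prod_places_pow' _ hN fun w => ?_
      have h2 : ((Δ : 𝓞 L) : L) = ∏ g ∈ W, (g (θ : L) - (θ : L)) := by
        rw [hΔ]
        exact map_prod (algebraMap (𝓞 L) L) _ _
      rw [h2, map_prod]
      calc ∏ g ∈ W, w (g (θ : L) - (θ : L)) ≤ ∏ _g ∈ W, (z : ℝ) ^ 2 := by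
            refine Finset.prod_le_prod (fun _ _ => apply_nonneg w _) fun g _ => ?_
            have h3 : w (g (θ : L)) ≤ z := by
              have := (hθ2 (w.comap (g : L →+* L))).trans hBz
              rw [InfinitePlace.comap_apply] at this
              exact this
            have h4 : w (θ : L) ≤ z := (hθ2 w).trans hBz
            have h5 : w (g (θ : L) - (θ : L)) ≤ w (g (θ : L)) + w (θ : L) := by
              rw [sub_eq_add_neg]
              refine (AbsoluteValue.add_le w.1 _ _).trans (le_of_eq ?_)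
              congr 1
              exact AbsoluteValue.map_neg w.1 _
            nlinarith
        _ = ((z : ℝ) ^ 2) ^ W.card := by rw [Finset.prod_const]
        _ ≤ ((z : ℝ) ^ 2) ^ N := pow_le_pow_right₀ (by nlinarith) hWcard
    have h2 := Real.log_le_log (by exact_mod_cast Nat.pos_of_ne_zero hD0) h1
    rw [Real.log_pow, Real.log_pow, Real.log_pow] at h2
    refine h2.trans (le_of_eq ?_)
    push_cast
    ring
  refine ⟨G1.filter (fun p => ¬ p ∣ D), ?_, ?_⟩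
  · have h1 := card_filter_dvd G1 (fun p hp => (hG1 p hp).2.2.1) hD0
    have h2 : (z : ℝ) / (40 * N) = z / (80 * N) + z / (80 * N) := by
      field_simp
      ring
    have h3 : 2 * Real.log D ≤ 4 * (N : ℝ) ^ 2 * Real.log z := by linarith
    linarith
  · intro p hp
    rw [mem_filter] at hp
    obtain ⟨hzp, hpz, hpp, a, Q, hQ, hpQ, haQ⟩ := hG1 p hp.1
    refine ⟨hzp, hpz, hpp, ?_⟩
    obtain ⟨Q0, σ0, hQ0, hpQ0, hfr, hall⟩ := exists_frob (L := L) hpp
    obtain ⟨τ, rfl⟩ := hall Q hQ hpQ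
    refine ⟨τ • Q0, τ * σ0 * τ⁻¹, hQ, hpQ, fun x => frob_conj hfr τ x, ?_⟩
    by_contra hσ
    set σ := τ * σ0 * τ⁻¹ with hσdef
    have h1 : σ • θ - θ ^ p ∈ τ • Q0 := frob_conj hfr τ θ
    have h2 : ((a : ℕ) : 𝓞 L) ^ p - θ ^ p ∈ τ • Q0 :=
      Ideal.mem_of_dvd _ (sub_dvd_pow_sub_pow _ _ p) haQ
    have h3 : ((a : ℕ) : 𝓞 L) ^ p - ((a : ℕ) : 𝓞 L) ∈ τ • Q0 := by
      have hf : Fact p.Prime := ⟨hpp⟩
      have h4 : (p : ℤ) ∣ ((a : ℤ) ^ p - (a : ℤ)) := by
        rw [← ZMod.intCast_zmod_eq_zero_iff_dvd]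
        push_cast
        rw [ZMod.pow_card, sub_self]
      obtain ⟨m, hm⟩ := h4
      have h5 : ((a : ℕ) : 𝓞 L) ^ p - ((a : ℕ) : 𝓞 L) = ((p : ℕ) : 𝓞 L) * ((m : ℤ) : 𝓞 L) := by
        have := congrArg (fun t : ℤ => (t : 𝓞 L)) hm
        push_cast at this
        exact this
      rw [h5]
      exact Ideal.mul_mem_right _ _ hpQ
    have h4 : σ • θ - θ ∈ τ • Q0 := by
      have h5 := (τ • Q0).add_mem ((τ • Q0).sub_mem h1 h2) ((τ • Q0).add_mem h3 haQ)
      have e : (σ • θ - θ ^ p) - (((a : ℕ) : 𝓞 L) ^ p - θ ^ p) +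
          ((((a : ℕ) : 𝓞 L) ^ p - ((a : ℕ) : 𝓞 L)) + (((a : ℕ) : 𝓞 L) - θ)) = σ • θ - θ := by ring
      rwa [e] at h5
    have h5 : Δ ∈ τ • Q0 := by
      rw [hΔ]
      have h6 : σ ∈ W := by
        rw [hW, mem_filter]
        exact ⟨Finset.mem_univ _, hσ⟩
      rw [← Finset.mul_prod_erase _ _ h6]
      exact Ideal.mul_mem_right _ _ h4
    apply hp.2
    rw [hD, ← Ideal.absNorm_span_singleton]
    refine (prime_dvd_absNorm hQ hpp hpQ).trans (Ideal.absNorm_dvd_absNorm_of_le ?_)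
    rw [Ideal.span_le, Set.singleton_subset_iff]
    exact h5

end Run7.h673.LU
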