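import Pool.Agent.Run7.h673.LU.Core
import Pool.Agent.Run7.h673.LT.Main

/-! The bound for the torsion of the class group. -/

set_option autoImplicit false

namespace Run7.h673.LU

open NumberField Finset Pool.Agent.TH847.LS Pool.Agent.TH847.LG IntermediateField Run7.h673.LT
open scoped Classical nonZeroDivisors Pointwise

theorem mainR (n N t : ℕ) (hn2 : 2 ≤ n) (hN1 : 1 ≤ N) : ∃ c : ℝ, 0 < c ∧ ∀ l : ℕ, 1 ≤ l →
    ∃ C : ℝ, 0 < C ∧
    ∀ (E K L : Type) [Field E] [NumberField E] [Field K] [NumberField K] [Field L]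
      [NumberField L] [Algebra E K] [Algebra E L] [IsGalois ℚ L] (R0 : Subgroup Gal(L/ℚ)),
    Module.finrank ℚ K = n → Module.finrank ℚ L = N →
    (∀ U : ℕ → Subgroup Gal(L/ℚ), fix E L < U 0 → ¬ ∀ i < t, U i < U (i + 1)) →
    AdmR (fix E L) R0 → Small R0 (|(discr E : ℝ)| ^ (c / (l : ℝ) ^ t)) →
    (Nat.card {c : ClassGroup (𝓞 K) // c ^ l = 1} : ℝ) ≤
      C * √|(discr K : ℝ)| * Real.log |(discr K : ℝ)| ^ (n - 1) *
        |(discr E : ℝ)| ^ (-(c / (l : ℝ) ^ t)) := by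
  obtain ⟨v, z0, hv2, hz02, hcore⟩ := core2 N hN1
  obtain ⟨Cb, hCb, hbase⟩ := base n hn2
  refine ⟨1 / (6 * ((N : ℝ) ^ 2 + 1) * ((N : ℝ) ^ 2 * v * (2 * n) + 2) ^ t), by positivity, ?_⟩
  intro l hl
  set Cκ : ℝ := (1 + 2 ^ N) ^ (2 ^ N) with hCκ
  have hCκ1 : 1 ≤ Cκ := one_le_pow₀ (by
    have : (0 : ℝ) < 2 ^ N := by positivity
    linarith)
  set A1 : ℝ := (z0 + (2 * 6 ^ N) ^ 2 * 4 ^ (N + 1) * 2 ^ (N ^ 2)) * Cκ ^ (N ^ 2) with hA1
  have hz0r : (2 : ℝ) ≤ z0 := by exact_mod_cast hz02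
  have hN1r : (1 : ℝ) ≤ N := by exact_mod_cast hN1
  have hCκN : 1 ≤ Cκ ^ (N ^ 2) := one_le_pow₀ hCκ1
  have hA1b : (z0 : ℝ) ≤ A1 := by
    have h1 : (0 : ℝ) ≤ (2 * 6 ^ N) ^ 2 * 4 ^ (N + 1) * 2 ^ (N ^ 2) := by positivity
    calc (z0 : ℝ) = z0 * 1 := (mul_one _).symm
      _ ≤ (z0 + (2 * 6 ^ N) ^ 2 * 4 ^ (N + 1) * 2 ^ (N ^ 2)) * Cκ ^ (N ^ 2) := by
          gcongr
          linarith
  have hA1a : (1 : ℝ) ≤ A1 := by linarith
  set A2 : ℝ := (150 * (2 * A1) ^ v) ^ (2 * l * n) with hA2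
  have hA20 : 0 < A2 := by positivity
  set A : ℝ := A2 + 2 * Cκ with hA
  have hA_1 : 1 ≤ A := by linarith
  set a : ℕ := N ^ 2 * v * (2 * l * n) + 1 with ha
  set b : ℕ := a + 1 with hb
  set M : ℕ := b ^ t with hM
  set q : ℝ := 2 * ((N : ℝ) ^ 2 + 1) * (M + 2) with hq
  have hq0 : 0 < q := by positivity
  set δ : ℝ := 1 / q with hδ
  have hδ0 : 0 < δ := by positivity
  have hlr : (1 : ℝ) ≤ l := by exact_mod_cast hl
  -- the exponent
  have hexp : 1 / (6 * ((N : ℝ) ^ 2 + 1) * ((N : ℝ) ^ 2 * v * (2 * n) + 2) ^ t) / (l : ℝ) ^ t ≤ δ := by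
    rw [hδ, div_div]
    refine one_div_le_one_div_of_le hq0 ?_
    have h1 : (M : ℝ) ≤ ((N : ℝ) ^ 2 * v * (2 * n) + 2) ^ t * (l : ℝ) ^ t := by
      rw [← mul_pow, hM]
      push_cast
      refine pow_le_pow_left₀ (by positivity) ?_ t
      rw [hb, ha]
      push_cast
      nlinarith
    have h2 : (1 : ℝ) ≤ ((N : ℝ) ^ 2 * v * (2 * n) + 2) ^ t * (l : ℝ) ^ t := by
      refine one_le_mul_of_one_le_of_one_le (one_le_pow₀ ?_) (one_le_pow₀ hlr)
      have : (0 : ℝ) ≤ (N : ℝ) ^ 2 * v * (2 * n) := by positivity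
      linarith
    rw [hq]
    have h3 : (0 : ℝ) < (N : ℝ) ^ 2 + 1 := by positivity
    calc 2 * ((N : ℝ) ^ 2 + 1) * (M + 2)
        ≤ 2 * ((N : ℝ) ^ 2 + 1) * (3 * (((N : ℝ) ^ 2 * v * (2 * n) + 2) ^ t * (l : ℝ) ^ t)) := by
          gcongr
          linarith
      _ = _ := by ring
  -- a large discriminant
  have hlarge : ∀ᶠ D : ℝ in Filter.atTop, A ≤ D ^ δ ∧ 2 ≤ D ^ δ ∧
      3 * Real.log D ≤ D ^ δ / (160 * N) ∧ 1 < D := by
    have h1 : Filter.Tendsto (fun D : ℝ => D ^ δ) Filter.atTop Filter.atTop :=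
      tendsto_rpow_atTop hδ0
    have h2 := (isLittleO_log_rpow_atTop hδ0).def (show (0 : ℝ) < 1 / (480 * N) by positivity)
    filter_upwards [h1.eventually_ge_atTop A, h1.eventually_ge_atTop 2, h2,
      Filter.eventually_gt_atTop 1] with D a1 a2 a3 a4
    refine ⟨a1, a2, ?_, a4⟩
    rw [Real.norm_of_nonneg (Real.log_nonneg a4.le), Real.norm_of_nonneg (by positivity)] at a3
    have a5 : D ^ δ / (160 * N) = 3 * (1 / (480 * N) * D ^ δ) := by
      field_simp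
      ring
    linarith
  obtain ⟨D0, hD0⟩ := Filter.eventually_atTop.mp hlarge
  set D1 : ℝ := max D0 1 with hD1
  have hD1a : 1 ≤ D1 := le_max_right _ _
  refine ⟨Cb * (160 * N + D1 ^ δ), by positivity, ?_⟩
  intro E K L _ _ _ _ _ _ _ _ _ R0 hnK hNL hchain hgood hR0
  set T : ℝ := (Nat.card {c : ClassGroup (𝓞 K) // c ^ l = 1} : ℝ) with hT
  obtain ⟨Nn, hNn, hS⟩ := hbase K hnK
  set S := ∑ J ∈ FI K Nn, (1 + Real.log ((Nn : ℝ) / Ideal.absNorm J)) ^ n with hSdef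
  set R : ℝ := √|(discr K : ℝ)| * Real.log |(discr K : ℝ)| ^ (n - 1) with hR
  have hDK1 := one_le_abs_discr K
  have hR0 : 0 ≤ R := mul_nonneg (Real.sqrt_nonneg _) (pow_nonneg (Real.log_nonneg hDK1) _)
  have hS' : S ≤ Cb * R := by
    rw [hR, ← mul_assoc]
    exact hS
  set D : ℝ := |(discr E : ℝ)| with hD
  have hD1' : 1 ≤ D := one_le_abs_discr E
  have hDpos : 0 < D := by linarith
  -- reduction to the exponent `δ`
  have hgoal : T ≤ Cb * (160 * N + D1 ^ δ) * R * D ^ (-δ) → T ≤ Cb * (160 * N + D1 ^ δ) *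
      √|(discr K : ℝ)| * Real.log |(discr K : ℝ)| ^ (n - 1) *
        D ^ (-(1 / (6 * ((N : ℝ) ^ 2 + 1) * ((N : ℝ) ^ 2 * v * (2 * n) + 2) ^ t) / (l : ℝ) ^ t)) := by
    intro h
    calc T ≤ Cb * (160 * N + D1 ^ δ) * R * D ^ (-δ) := h
      _ ≤ Cb * (160 * N + D1 ^ δ) * R *
          D ^ (-(1 / (6 * ((N : ℝ) ^ 2 + 1) * ((N : ℝ) ^ 2 * v * (2 * n) + 2) ^ t) / (l : ℝ) ^ t)) := by
          refine mul_le_mul_of_nonneg_left ?_ (by positivity)
          exact Real.rpow_le_rpow_of_exponent_le hD1' (neg_le_neg hexp)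
      _ = _ := by
          rw [hR]
          ring
  apply hgoal
  have hDδ : 0 < D ^ δ := Real.rpow_pos_of_pos hDpos _
  have hDδ' : D ^ (-δ) = (D ^ δ)⁻¹ := Real.rpow_neg hDpos.le δ
  have hTS : T ≤ S := torsion_le hnK hNn
  by_cases hsmall : D < D1
  · -- small discriminant
    have h1 : D ^ δ ≤ D1 ^ δ := Real.rpow_le_rpow hDpos.le hsmall.le hδ0.le
    have h2 : 1 ≤ D1 ^ δ * D ^ (-δ) := by
      rw [hDδ', ← div_eq_mul_inv, one_le_div hDδ]
      exact h1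
    calc T ≤ Cb * R := hTS.trans hS'
      _ = Cb * R * 1 := (mul_one _).symm
      _ ≤ Cb * R * (D1 ^ δ * D ^ (-δ)) := mul_le_mul_of_nonneg_left h2 (by positivity)
      _ ≤ Cb * R * ((160 * N + D1 ^ δ) * D ^ (-δ)) := by
          refine mul_le_mul_of_nonneg_left (mul_le_mul_of_nonneg_right ?_ ?_) (by positivity)
          · have : (0 : ℝ) < 160 * N := by positivity
            linarith
          · positivity
      _ = _ := by ring
  push Not at hsmall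
  obtain ⟨hβA, hβ2, hβlog, hDgt⟩ := hD0 D ((le_max_left _ _).trans hsmall)
  set β : ℝ := D ^ δ with hβ
  have hβ1 : 1 ≤ β := by linarith
  -- the scales
  let B : ℕ → ℝ := fun j => β ^ (b ^ j)
  have hB1 : ∀ j, 1 ≤ B j := fun j => one_le_pow₀ hβ1
  have hBβ : ∀ j, β ≤ B j := by
    intro j
    have : 1 ≤ b ^ j := Nat.one_le_pow _ _ (by omega)
    calc β = β ^ 1 := (pow_one _).symm
      _ ≤ β ^ (b ^ j) := pow_le_pow_right₀ hβ1 this
  have hBmono : Monotone B := by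
    intro i j hij
    exact pow_le_pow_right₀ hβ1 (Nat.pow_le_pow_right (by omega) hij)
  have hBstep : ∀ j, A * B j ^ a ≤ B (j + 1) := by
    intro j
    have h1 : 1 ≤ b ^ j := Nat.one_le_pow _ _ (by omega)
    calc A * B j ^ a ≤ β * B j ^ a := by
          have := hB1 j
          gcongr
      _ = β ^ (1 + b ^ j * a) := by
          change β * (β ^ (b ^ j)) ^ a = _
          rw [← pow_mul, pow_add, pow_one]
      _ ≤ β ^ (b ^ (j + 1)) := by
          refine pow_le_pow_right₀ hβ1 ?_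
          have e : b ^ (j + 1) = b ^ j * a + b ^ j := by
            rw [pow_succ, hb]
            ring
          omega
      _ = B (j + 1) := rfl
  have hcardG : Nat.card Gal(L/ℚ) = N := by rw [IsGalois.card_aut_eq_finrank, hNL]
  have hκ : Nat.card (Subgroup Gal(L/ℚ)) ≤ 2 ^ N := by
    have h3 := card_subgroup_le (G := Gal(L/ℚ))
    rwa [hcardG] at h3
  have hCκL : (1 + Nat.card (Subgroup Gal(L/ℚ)) : ℝ) ^ Nat.card (Subgroup Gal(L/ℚ)) ≤ Cκ := by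
    have h1 : (Nat.card (Subgroup Gal(L/ℚ)) : ℝ) ≤ 2 ^ N := by exact_mod_cast hκ
    have h2 : (1 : ℝ) ≤ 1 + 2 ^ N := by
      have : (0 : ℝ) < 2 ^ N := by positivity
      linarith
    calc (1 + Nat.card (Subgroup Gal(L/ℚ)) : ℝ) ^ Nat.card (Subgroup Gal(L/ℚ))
        ≤ (1 + 2 ^ N) ^ Nat.card (Subgroup Gal(L/ℚ)) := by gcongr
      _ ≤ (1 + 2 ^ N) ^ (2 ^ N) := pow_le_pow_right₀ h2 hκ
  -- all scales are small
  have hscale : ∀ j ≤ t, (2 * (Cκ * B j)) ^ (N ^ 2) ≤ D ^ (1 / 2 : ℝ) := by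
    intro j hj
    have h1 : b ^ j ≤ M := Nat.pow_le_pow_right (by omega) hj
    have h2 : 2 * (Cκ * B j) ≤ β ^ (M + 2) := by
      have h4 : B j ≤ β ^ M := pow_le_pow_right₀ hβ1 h1
      have h3 := hB1 j
      have h5 : 2 * Cκ ≤ β := by linarith
      calc 2 * (Cκ * B j) = (2 * Cκ) * B j := by ring
        _ ≤ β * β ^ M := by gcongr
        _ = β ^ (M + 1) := by rw [pow_succ]; ring
        _ ≤ β ^ (M + 2) := pow_le_pow_right₀ hβ1 (by omega)
    have h3 : (0 : ℝ) ≤ 2 * (Cκ * B j) := by have := hB1 j; positivity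
    calc (2 * (Cκ * B j)) ^ (N ^ 2) ≤ (β ^ (M + 2)) ^ (N ^ 2) := pow_le_pow_left₀ h3 h2 _
      _ = D ^ (δ * ((M + 2 : ℕ) : ℝ) * ((N ^ 2 : ℕ) : ℝ)) := by
          rw [hβ, ← Real.rpow_natCast, ← Real.rpow_natCast, ← Real.rpow_mul hDpos.le,
            ← Real.rpow_mul hDpos.le]
      _ ≤ D ^ (1 / 2 : ℝ) := by
          refine Real.rpow_le_rpow_of_exponent_le hD1' ?_
          rw [hδ, hq]
          push_cast
          rw [one_div, inv_mul_eq_div, div_mul_eq_mul_div, div_le_iff₀ (by positivity)]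
          have h4 : (0 : ℝ) ≤ (M : ℝ) + 2 := by positivity
          nlinarith
  have hhalf : D ^ (1 / 2 : ℝ) < D := by
    calc D ^ (1 / 2 : ℝ) < D ^ (1 : ℝ) := Real.rpow_lt_rpow_of_exponent_lt hDgt (by norm_num)
      _ = D := Real.rpow_one D
  have hCB1 : ∀ j, 1 ≤ Cκ * B j := fun j => one_le_mul_of_one_le_of_one_le hCκ1 (hB1 j)
  have hnot : ∀ j ≤ t, ∀ U : Subgroup Gal(L/ℚ), U ≤ fix E L → ¬ Small U (Cκ * B j) := by
    intro j hj U hU hsm
    obtain ⟨f⟩ := exists_hom' (E := E) hU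
    have h1 := abs_discr_le_of_hom f
    have h2 := small_disc_le hNL (hCB1 j) hsm
    have h3 := hscale j hj
    linarith
  have hR0' : Small R0 (B 0) := by
    refine hR0.mono ?_
    have h1 : B 0 = D ^ δ := by
      change β ^ (b ^ 0) = D ^ δ
      rw [pow_zero, pow_one]
    rw [h1]
    exact Real.rpow_le_rpow_of_exponent_le hD1' hexp
  obtain ⟨j, hj, N0, hN0n, hN0R, hN0s, hN0l⟩ := dichotomy2 (s := t) Cκ hCκL B
    (fun j => by have := hB1 j; linarith) hBmono hR0' hnot hchain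
  have hjT : j ≤ t := hj.le
  have hN0E : ¬ N0 ≤ fix E L := fun h => hnot j hjT N0 h hN0s
  -- the range of the primes
  set Bj := B j with hBj
  have hBj1 : 1 ≤ Bj := hB1 j
  set z : ℕ := ⌈A1 * Bj ^ (N ^ 2)⌉₊ with hz
  have hBjN : 1 ≤ Bj ^ (N ^ 2) := one_le_pow₀ hBj1
  have hz1 : A1 * Bj ^ (N ^ 2) ≤ z := Nat.le_ceil _
  have hz2 : (z : ℝ) ≤ 2 * A1 * Bj ^ (N ^ 2) := by
    have h1 := Nat.ceil_lt_add_one (show (0 : ℝ) ≤ A1 * Bj ^ (N ^ 2) by positivity)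
    have h2 : 1 ≤ A1 * Bj ^ (N ^ 2) := one_le_mul_of_one_le_of_one_le hA1a hBjN
    rw [← hz] at h1
    linarith
  have hzz0 : z0 ≤ z := by
    have h1 : (z0 : ℝ) ≤ z := by
      refine le_trans ?_ hz1
      nlinarith
    exact_mod_cast h1
  have hdN0 := small_disc_le hNL (hCB1 j) hN0s
  have hzD : (2 * 6 ^ N) ^ 2 * 4 ^ (N + 1) * |(discr (fixedField N0) : ℝ)| ≤ z := by
    refine le_trans ?_ hz1
    calc (2 * 6 ^ N) ^ 2 * 4 ^ (N + 1) * |(discr (fixedField N0) : ℝ)|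
        ≤ (2 * 6 ^ N) ^ 2 * 4 ^ (N + 1) * (2 * (Cκ * Bj)) ^ (N ^ 2) := by gcongr
      _ = ((2 * 6 ^ N) ^ 2 * 4 ^ (N + 1) * 2 ^ (N ^ 2)) * Cκ ^ (N ^ 2) * Bj ^ (N ^ 2) := by
          rw [mul_pow 2 (Cκ * Bj), mul_pow Cκ Bj]
          ring
      _ ≤ A1 * Bj ^ (N ^ 2) := by
          refine mul_le_mul_of_nonneg_right ?_ (by positivity)
          rw [hA1]
          refine mul_le_mul_of_nonneg_right ?_ (by positivity)
          linarith
  have hBz : Cκ * Bj ≤ z := by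
    refine le_trans ?_ hz1
    have hN2 : N ^ 2 ≠ 0 := pow_ne_zero 2 (by omega)
    have h1 : Cκ ≤ Cκ ^ (N ^ 2) := le_self_pow₀ hCκ1 hN2
    have h2 : Bj ≤ Bj ^ (N ^ 2) := le_self_pow₀ hBj1 hN2
    have h3 : Cκ ^ (N ^ 2) ≤ A1 := by
      rw [hA1]
      refine le_mul_of_one_le_left (by positivity) ?_
      have : (0 : ℝ) ≤ (2 * 6 ^ N) ^ 2 * 4 ^ (N + 1) * 2 ^ (N ^ 2) := by positivity
      linarith
    calc Cκ * Bj ≤ A1 * Bj ^ (N ^ 2) := mul_le_mul (h1.trans h3) h2 (by linarith) (by linarith)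
      _ = _ := rfl
  obtain ⟨G0, hG0card, hG0⟩ := hcore E L hNL R0 hgood N0 hN0n hN0R hN0E (Cκ * Bj) hN0s z hzz0 hBz hzD
  -- the small primes
  choose! Qf σf hQf hpQf hfrf hσf using fun (p : ℕ) (hp : p ∈ G0) => (hG0 p hp).2.2.2.2
  have htwo := fun (p : ℕ) (hp : p ∈ G0) => two_primes (E := E) (hG0 p hp).2.2.1 (hG0 p hp).2.2.2.1
    (hQf p hp) (hpQf p hp) (hfrf p hp) hN0n (hσf p hp)
  choose! P P' hP1 hP2 hP3 hP4 hP5 hP6 using htwo
  have hpig := evTwo (M := E) (K := K) hnK hl Nn hNn G0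
    {x : 𝓞 E | algebraMap E L (x : E) ∈ fixedField N0} P P'
    (fun p hp => ⟨(hG0 p hp).2.2.1, hP1 p hp, hP2 p hp, hP3 p hp, hP4 p hp, hP5 p hp,
      fun x hx => hP6 p hp x hx⟩) (by
    intro p hp x hx
    obtain ⟨w, hw⟩ := large_of_notMem hN0l x hx
    refine ⟨w, lt_of_le_of_lt ?_ hw⟩
    obtain ⟨_, h2, h3, _⟩ := hG0 p hp
    have hpr : (p : ℝ) ≤ (z : ℝ) ^ v := by exact_mod_cast h2
    have hp1 : (1 : ℝ) ≤ 150 * p := by
      have : (1 : ℝ) ≤ p := by exact_mod_cast h3.one_lt.le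
      linarith
    have hen : Module.finrank E K ≤ n := by
      rw [← hnK, ← Module.finrank_mul_finrank ℚ E K]
      exact Nat.le_mul_of_pos_left _ Module.finrank_pos
    calc (150 * p : ℝ) ^ (2 * l * Module.finrank E K) ≤ (150 * p : ℝ) ^ (2 * l * n) :=
          pow_le_pow_right₀ hp1 (Nat.mul_le_mul_left _ hen)
      _ ≤ (150 * (2 * A1 * Bj ^ (N ^ 2)) ^ v) ^ (2 * l * n) := by
          have h4 : (p : ℝ) ≤ (2 * A1 * Bj ^ (N ^ 2)) ^ v := hpr.trans (by gcongr)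
          gcongr
      _ = A2 * Bj ^ (N ^ 2 * v * (2 * l * n)) := by
          rw [hA2, mul_pow (2 * A1) (Bj ^ (N ^ 2)) v, ← pow_mul, ← mul_assoc, mul_pow, ← pow_mul]
      _ ≤ A * Bj ^ a := by
          have h5 : A2 ≤ A := by linarith
          have h6 : Bj ^ (N ^ 2 * v * (2 * l * n)) ≤ Bj ^ a := pow_le_pow_right₀ hBj1 (by omega)
          gcongr
      _ ≤ B (j + 1) := hBstep j)
  rw [← hSdef, ← hT] at hpig
  have hlogN0 : 2 * Real.log |(discr (fixedField N0) : ℝ)| ≤ Real.log D := by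
    have h1 : |(discr (fixedField N0) : ℝ)| ≤ D ^ (1 / 2 : ℝ) := hdN0.trans (hscale j hjT)
    have h2 := Real.log_le_log (by linarith [one_le_abs_discr (fixedField N0)]) h1
    rw [Real.log_rpow hDpos] at h2
    linarith
  have hzβ : β ≤ z := by
    refine le_trans ?_ hz1
    have h1 : Bj ≤ Bj ^ (N ^ 2) := by
      calc Bj = Bj ^ 1 := (pow_one _).symm
        _ ≤ Bj ^ (N ^ 2) := pow_le_pow_right₀ hBj1 (Nat.one_le_pow _ _ hN1)
    have h2 := hBβ j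
    nlinarith
  have hG0card' : β / (160 * N) ≤ G0.card := by
    have h1 : β / (80 * N) ≤ z / (80 * N) := by gcongr
    have h2 : β / (80 * N) = β / (160 * N) + β / (160 * N) := by
      field_simp
      ring
    linarith
  have hT0' : 0 ≤ T := Nat.cast_nonneg _
  have h1 : β / (160 * N) * T ≤ Cb * R := by
    calc β / (160 * N) * T ≤ G0.card * T := by gcongr
      _ ≤ S := hpig
      _ ≤ Cb * R := hS'
  have h2 : T ≤ Cb * (160 * N) * R * β⁻¹ := by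
    rw [← div_eq_mul_inv, le_div_iff₀ hDδ]
    rw [div_mul_eq_mul_div, div_le_iff₀ (by positivity)] at h1
    linarith
  rw [hDδ']
  refine h2.trans ?_
  have h4 : (0 : ℝ) ≤ D1 ^ δ := by positivity
  have h5 : 0 ≤ β⁻¹ := by positivity
  gcongr
  linarith

end Run7.h673.LU
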