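import Pool.Agent.Run7.h673.LT.Hom

/-! Elements of inertia groups fix subfields in which the prime is unramified. -/

set_option autoImplicit false

namespace Run7.h673.LU

open NumberField IntermediateField Run7.h673.LT
open scoped Classical Pointwise

theorem inertia_fix {E L : Type} [Field E] [NumberField E] [Field L] [NumberField L] [Algebra E L]
    {p : ℕ} (hp : p.Prime) (hpE : ¬ p ∣ (discr E).natAbs)
    {Q : Ideal (𝓞 L)} (hQ : Q.IsPrime) (hpQ : ((p : ℕ) : 𝓞 L) ∈ Q) {i : Gal(L/ℚ)}
    (hi : ∀ x : 𝓞 L, i • x - x ∈ Q) : i ∈ fix E L := by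
  by_contra hcon
  rw [mem_fix] at hcon
  push Not at hcon
  obtain ⟨x0, hx0⟩ := hcon
  obtain ⟨σ⟩ : Nonempty (L →+* ℂ) := inferInstance
  let R := integralClosure ℤ ℂ
  have hmap : ∀ (A : Type) [Field A] [NumberField A] (j : A →+* ℂ) (x : 𝓞 A), j (x : A) ∈ R := by
    intro A _ _ j x
    have h1 : IsIntegral ℤ (x : A) := RingOfIntegers.isIntegral_coe x
    exact h1.map j.toIntAlgHom
  let g : ∀ (A : Type) [Field A] [NumberField A] (_ : A →+* ℂ), 𝓞 A →+* R :=
    fun A _ _ j => (j.comp (algebraMap (𝓞 A) A)).codRestrict R.toSubring (hmap A j)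
  have hg : ∀ (A : Type) [Field A] [NumberField A] (j : A →+* ℂ) (x : 𝓞 A),
      ((g A j x : R) : ℂ) = j (x : A) := fun A _ _ j x => rfl
  let _ : Algebra (𝓞 L) R := (g L σ).toAlgebra
  have htower : IsScalarTower ℤ (𝓞 L) R := IsScalarTower.of_algebraMap_eq' (RingHom.ext_int _ _)
  have hRint : Algebra.IsIntegral ℤ R := inferInstance
  have hint : Algebra.IsIntegral (𝓞 L) R := Algebra.IsIntegral.tower_top ℤ
  obtain ⟨T, hT, hTQ⟩ := Ideal.exists_ideal_over_prime_of_isIntegral_of_isDomain (S := R) Q (by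
      have hinj : Function.Injective (algebraMap (𝓞 L) R) := by
        intro a b hab
        have h1 : ((g L σ a : R) : ℂ) = ((g L σ b : R) : ℂ) := congrArg Subtype.val hab
        rw [hg, hg] at h1
        exact RingOfIntegers.ext (σ.injective h1)
      rw [(RingHom.injective_iff_ker_eq_bot _).mp hinj]
      exact bot_le)
  have hTmem : ∀ x : 𝓞 L, x ∈ Q → g L σ x ∈ T := by
    intro x hx
    rw [← hTQ] at hx
    exact hx
  -- the two embeddings
  let j1 : E →+* ℂ := σ.comp (algebraMap E L)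
  let j2 : E →+* ℂ := σ.comp ((i : L →+* L).comp (algebraMap E L))
  have hj : j1 ≠ j2 := by
    intro h
    apply hx0
    have h1 := congrArg (fun f : E →+* ℂ => f x0) h
    exact (σ.injective h1).symm
  -- the matrix
  let e : (E →+* ℂ) ≃ Module.Free.ChooseBasisIndex ℤ (𝓞 E) :=
    Fintype.equivOfCardEq ((Embeddings.card E ℂ).trans (Module.finrank_eq_card_basis (integralBasis E)))
  let A : Matrix (E →+* ℂ) (E →+* ℂ) R := fun a j => g E j (RingOfIntegers.basis E (e a))
  have hdet : A.det ∈ T := by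
    rw [← Ideal.Quotient.eq_zero_iff_mem, RingHom.map_det]
    refine Matrix.det_zero_of_column_eq hj fun a => ?_
    rw [RingHom.mapMatrix_apply, Matrix.map_apply, Matrix.map_apply, Ideal.Quotient.mk_eq_mk_iff_sub_mem]
    have h1 := hTmem _ (hi (algebraMap (𝓞 E) (𝓞 L) (RingOfIntegers.basis E (e a))))
    have h2 : g E j1 (RingOfIntegers.basis E (e a)) - g E j2 (RingOfIntegers.basis E (e a)) =
        - g L σ (i • algebraMap (𝓞 E) (𝓞 L) (RingOfIntegers.basis E (e a)) -
          algebraMap (𝓞 E) (𝓞 L) (RingOfIntegers.basis E (e a))) := by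
      rw [map_sub, neg_sub]
      rfl
    change g E j1 (RingOfIntegers.basis E (e a)) - g E j2 (RingOfIntegers.basis E (e a)) ∈ T
    rw [h2]
    exact T.neg_mem h1
  have hdisc : algebraMap ℤ R (discr E) = A.det ^ 2 := by
    apply Subtype.val_injective
    have h1 := Algebra.discr_eq_det_embeddingsMatrixReindex_pow_two ℚ ℂ
      (fun a => integralBasis E (e a)) (RingHom.equivRatAlgHom E ℂ)
    have h2 : Algebra.discr ℚ (fun a => integralBasis E (e a)) = (discr E : ℚ) := by
      have h3 := Algebra.discr_reindex ℚ (integralBasis E) e.symm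
      rw [coe_discr]
      exact h3
    rw [h2] at h1
    have h3 : ((A.det : R) : ℂ) = (Algebra.embeddingsMatrixReindex ℚ ℂ
        (fun a => integralBasis E (e a)) (RingHom.equivRatAlgHom E ℂ)).det := by
      have h4 : ((A.det : R) : ℂ) = R.val.toRingHom A.det := rfl
      rw [h4, RingHom.map_det]
      congr 1
      ext a j
      rw [RingHom.mapMatrix_apply, Matrix.map_apply]
      change j ((RingOfIntegers.basis E (e a) : 𝓞 E) : E) = j (integralBasis E (e a))
      rw [integralBasis_apply]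
    have h5 : ((A.det ^ 2 : R) : ℂ) = ((A.det : R) : ℂ) ^ 2 := by push_cast; rfl
    change ((algebraMap ℤ R (discr E) : R) : ℂ) = ((A.det ^ 2 : R) : ℂ)
    rw [h5, h3, ← h1]
    simp
  have hdT : algebraMap ℤ R (discr E) ∈ T := by
    rw [hdisc]
    exact Ideal.pow_mem_of_mem T hdet 2 (by norm_num)
  have hpT : algebraMap ℤ R (p : ℤ) ∈ T := by
    have h1 := hTmem _ hpQ
    rw [map_natCast] at h1
    simpa using h1
  have hcop : IsCoprime (p : ℤ) (discr E) := by
    rw [Int.isCoprime_iff_gcd_eq_one]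
    have h1 := (Nat.Prime.coprime_iff_not_dvd hp).mpr hpE
    rw [Int.gcd_def, Int.natAbs_natCast]
    exact h1
  obtain ⟨u, w, huw⟩ := hcop
  apply hT.ne_top
  rw [Ideal.eq_top_iff_one]
  have h1 := T.add_mem (T.mul_mem_left (algebraMap ℤ R u) hpT) (T.mul_mem_left (algebraMap ℤ R w) hdT)
  rw [← map_mul, ← map_mul, ← map_add, huw, map_one] at h1
  exact h1

end Run7.h673.LU
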