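import Pool.Agent.Run7.h673.LU.Sign

/-! Fields without subfields whose discriminant has a small squarefree part. -/

set_option autoImplicit false

namespace Run7.h673.LU

open NumberField Finset IntermediateField Run7.h673.LT
open scoped Classical Pointwise

section group

variable {K L : Type} [Field K] [NumberField K] [Field L] [NumberField L] [Algebra K L]
  [IsGalois ℚ L]

/-- the group of a field without subfields is maximal -/
theorem coatom_of_primitive (hn : 2 ≤ Module.finrank ℚ K)
    (hK : ∀ F : IntermediateField ℚ K, F = ⊥ ∨ F = ⊤) : IsCoatom (fix K L) := by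
  let ι : K →ₐ[ℚ] L := (algebraMap K L).toRatAlgHom
  have hι : ∀ a, ι a = algebraMap K L a := fun a => rfl
  constructor
  · intro htop
    have h1 := finrank_fixed (K := K) (L := L)
    rw [htop] at h1
    have h2 : Module.finrank ℚ (fixedField (⊤ : Subgroup Gal(L/ℚ))) = 1 := by
      have h3 := Module.finrank_mul_finrank ℚ (fixedField (⊤ : Subgroup Gal(L/ℚ))) L
      rw [IntermediateField.finrank_fixedField_eq_card, ← IsGalois.card_aut_eq_finrank ℚ L,
        Subgroup.card_top] at h3
      have h4 : 0 < Nat.card Gal(L/ℚ) := Nat.card_pos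
      exact Nat.eq_of_mul_eq_mul_right h4 (by rw [h3, one_mul])
    omega
  · intro U hU
    have hle := hU.le
    rcases hK ((fixedField U).comap ι) with h1 | h1
    · -- the fixed field is the field of the rational numbers
      have h2 : fixedField U = ⊥ := by
        rw [eq_bot_iff]
        intro x hx
        have hxU := (IntermediateField.mem_fixedField_iff U x).mp hx
        obtain ⟨y, hy⟩ := mem_range_of_fixed (E := K) (x := x) fun g hg => hxU g (hle hg)
        have h3 : y ∈ (fixedField U).comap ι := by
          change ι y ∈ fixedField U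
          rw [hι, hy]
          exact hx
        rw [h1, IntermediateField.mem_bot] at h3
        obtain ⟨q, hq⟩ := h3
        rw [IntermediateField.mem_bot]
        refine ⟨q, ?_⟩
        rw [← hy, ← hq]
        simp
      have h3 := IntermediateField.fixingSubgroup_fixedField U
      rw [h2, IntermediateField.fixingSubgroup_bot] at h3
      exact h3.symm
    · exfalso
      apply hU.not_ge
      intro g hg
      rw [mem_fix]
      intro a
      have h2 : a ∈ (fixedField U).comap ι := by rw [h1]; exact IntermediateField.mem_top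
      have h3 : ι a ∈ fixedField U := h2
      rw [IntermediateField.mem_fixedField_iff] at h3
      exact h3 g hg

/-- the condition, for the stabiliser of a square root of `d` -/
theorem admR_sqrt (hn : 2 ≤ Module.finrank ℚ K)
    (hK : ∀ F : IntermediateField ℚ K, F = ⊥ ∨ F = ⊤) {d f : ℤ} (hd : discr K = d * f ^ 2)
    (hodd : Odd (Module.finrank ℚ K) → ¬ IsSquare d) :
    ∃ R0 : Subgroup Gal(L/ℚ), AdmR (fix K L) R0 ∧ Small R0 √|(d : ℝ)| := by
  obtain ⟨δ, hδ2, hδ⟩ := exists_sqrt_discr (L := L) hn
  have hf0 : f ≠ 0 := by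
    rintro rfl
    apply discr_ne_zero K
    rw [hd]
    ring
  have hd0 : d ≠ 0 := by
    rintro rfl
    apply discr_ne_zero K
    rw [hd]
    ring
  have hf0L : ((f : ℤ) : L) ≠ 0 := by exact_mod_cast hf0
  set ε : L := δ / (f : L) with hε
  have hε2 : ε ^ 2 = ((d : ℤ) : L) := by
    rw [hε, div_pow, hδ2, hd]
    push_cast
    field_simp
  have hε0 : ε ≠ 0 := by
    intro h
    rw [h] at hε2
    have : ((d : ℤ) : L) = 0 := by rw [← hε2]; simp
    exact hd0 (by exact_mod_cast this)
  have hint : IsIntegral ℤ ε := by
    refine IsIntegral.of_pow (n := 2) (by norm_num) ?_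
    rw [hε2]
    have h1 := isIntegral_algebraMap (R := ℤ) (A := L) (x := d)
    rwa [eq_intCast] at h1
  have hσ : ∀ σ : Gal(L/ℚ), (∀ x y : Gal(L/ℚ) ⧸ fix K L, ∃ k : ℤ, σ ^ k • x = y) →
      σ ε = -(-1) ^ (Module.finrank ℚ K) * ε := by
    intro σ h
    rw [hε, map_div₀, hδ σ h, map_intCast]
    ring
  let R0 : Subgroup Gal(L/ℚ) := MulAction.stabilizer Gal(L/ℚ) ε
  have hmem : ∀ g : Gal(L/ℚ), g ∈ R0 ↔ g ε = ε := fun g => MulAction.mem_stabilizer_iff
  have hcoat := coatom_of_primitive (L := L) hn hK
  refine ⟨R0, ?_, ?_⟩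
  · intro N hN hNR hN1
    rcases Nat.even_or_odd (Module.finrank ℚ K) with hev | hod
    · left
      intro σ hσN hσI
      have h1 := hσ σ fun x y => inert_trans hcoat hN hN1 hσI x y
      rw [hev.neg_one_pow] at h1
      have h2 := (hmem σ).mp (hNR hσN)
      rw [h2] at h1
      apply hε0
      have h3 : (2 : L) * ε = 0 := by linear_combination h1
      rcases mul_eq_zero.mp h3 with h | h
      · norm_num at h
      · exact h
    · right
      intro htop
      have h1 : Subgroup.closure (Inert (fix K L) N ∪ (N : Set Gal(L/ℚ))) ≤ R0 := by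
        rw [Subgroup.closure_le]
        rintro x (hx | hx)
        · have h2 := hσ x fun y y' => inert_trans hcoat hN hN1 hx y y'
          rw [hod.neg_one_pow] at h2
          have h3 : x ∈ R0 := by
            rw [hmem, h2]
            ring
          exact h3
        · exact hNR hx
      rw [htop, top_le_iff] at h1
      -- the square root is rational
      have h2 : ε ∈ (⊥ : IntermediateField ℚ L) := by
        rw [IsGalois.mem_bot_iff_fixed]
        intro g
        rw [← hmem, h1]
        exact Subgroup.mem_top g
      rw [IntermediateField.mem_bot] at h2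
      obtain ⟨q, hq⟩ := h2
      apply hodd hod
      have h3 : q ^ 2 = (d : ℚ) := by
        have h4 : (algebraMap ℚ L) (q ^ 2) = (algebraMap ℚ L) (d : ℚ) := by
          rw [map_pow, hq, hε2]
          simp
        exact (algebraMap ℚ L).injective h4
      have h4 : IsSquare ((d : ℤ) : ℚ) := ⟨q, by rw [← h3]; ring⟩
      exact Rat.isSquare_intCast_iff.mp h4
  · refine ⟨⟨ε, hint⟩, fun g => ?_, fun w => ?_⟩
    · exact (hmem g).symm
    · have h1 : w ε ^ 2 = |(d : ℝ)| := by
        rw [← map_pow, hε2, ← InfinitePlace.norm_embedding_eq, map_intCast, Complex.norm_intCast]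
      have h2 : w ε = √|(d : ℝ)| := by
        rw [← h1, Real.sqrt_sq (apply_nonneg w ε)]
      exact h2.le

end group

theorem transfer_rat (L : Type) [Field L] [CharZero L] (A1 : Algebra ℚ L) (m : ℕ)
    (h1 : @FiniteDimensional ℚ L _ _ A1.toModule) (h2 : @IsGalois ℚ _ L _ A1)
    (h3 : @Module.finrank ℚ L _ _ A1.toModule ≤ m) :
    FiniteDimensional ℚ L ∧ IsGalois ℚ L ∧ Module.finrank ℚ L ≤ m := by
  have e : A1 = DivisionRing.toRatAlgebra := Subsingleton.elim _ _
  subst e
  exact ⟨h1, h2, h3⟩

theorem splitting_facts (F : Type) [Field F] (p : Polynomial F) (hsep : p.Separable) :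
    FiniteDimensional F p.SplittingField ∧ IsGalois F p.SplittingField ∧
      Module.finrank F p.SplittingField ≤ p.natDegree.factorial ∧
      (p.map (algebraMap F p.SplittingField)).Splits := by
  have hspl : Fact ((p.map (algebraMap F p.SplittingField)).Splits) :=
    ⟨Polynomial.SplittingField.splits p⟩
  refine ⟨Polynomial.IsSplittingField.finiteDimensional p.SplittingField p,
    IsGalois.of_separable_splitting_field hsep, ?_, hspl.1⟩
  rw [← Polynomial.Gal.card_of_separable hsep]
  have h1 := Nat.card_le_card_of_injective _ (Polynomial.Gal.galActionHom_injective p p.SplittingField)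
  rw [Nat.card_perm] at h1
  exact h1.trans (Nat.factorial_le (Polynomial.ncard_rootSet_le p p.SplittingField))

theorem embed_facts (K L : Type) [Field K] [NumberField K] [Field L] [CharZero L] (A1 : Algebra ℚ L)
    (pb : PowerBasis ℚ K)
    (h4 : @Polynomial.Splits L _ ((minpoly ℚ pb.gen).map (@algebraMap ℚ L _ _ A1))) :
    Nonempty (K →+* L) := by
  have e : A1 = DivisionRing.toRatAlgebra := Subsingleton.elim _ _
  subst e
  have hirr : Irreducible (minpoly ℚ pb.gen) := minpoly.irreducible pb.isIntegral_gen
  obtain ⟨y, hy⟩ := h4.exists_eval_eq_zero (by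
    rw [Polynomial.degree_map]
    exact hirr.degree_pos.ne')
  have hy' : Polynomial.aeval y (minpoly ℚ pb.gen) = 0 := by
    rw [Polynomial.eval_map] at hy
    exact hy
  exact ⟨(pb.lift y hy').toRingHom⟩

/-- a Galois extension of bounded degree which contains a given field -/
theorem exists_galois (K : Type) [Field K] [NumberField K] : ∃ (L : Type) (_ : Field L)
    (_ : NumberField L) (_ : Algebra K L) (_ : IsGalois ℚ L),
    Module.finrank ℚ L ≤ (Module.finrank ℚ K).factorial := by
  let pb := Field.powerBasisOfFiniteOfSeparable ℚ K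
  have hirr : Irreducible (minpoly ℚ pb.gen) := minpoly.irreducible pb.isIntegral_gen
  have hdeg : (minpoly ℚ pb.gen).natDegree = Module.finrank ℚ K := by
    rw [pb.finrank]
    exact pb.natDegree_minpoly
  obtain ⟨h1, h2, h3, h4⟩ := splitting_facts ℚ (minpoly ℚ pb.gen) hirr.separable
  rw [hdeg] at h3
  obtain ⟨a1, a2, a3⟩ := transfer_rat _ _ _ h1 h2 h3
  obtain ⟨f⟩ := embed_facts K _ _ pb h4
  exact ⟨(minpoly ℚ pb.gen).SplittingField, Polynomial.SplittingField.instField _,
    { to_charZero := inferInstance, to_finiteDimensional := a1 }, f.toAlgebra, a2, a3⟩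

end Run7.h673.LU
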