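import Pool.Agent.Run7.h673.LU.Res

/-! Fields without subfields whose discriminant has a small squarefree part: the bound. -/

set_option autoImplicit false

namespace Run7.h673.LU

open NumberField Finset IntermediateField Run7.h673.LT
open scoped Classical Pointwise

theorem resolvent (n : ℕ) (hn : 2 ≤ n) : ∃ c : ℝ, 0 < c ∧ ∀ l : ℕ, 1 ≤ l → ∃ C : ℝ, 0 < C ∧
    ∀ (K : Type) [Field K] [NumberField K], Module.finrank ℚ K = n →
    (∀ F : IntermediateField ℚ K, F = ⊥ ∨ F = ⊤) → ∀ d f : ℤ, discr K = d * f ^ 2 →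
    (Odd n → ¬ IsSquare d) → |(d : ℝ)| ≤ |(discr K : ℝ)| ^ (c / (l : ℝ)) →
    (Nat.card {x : ClassGroup (𝓞 K) // x ^ l = 1} : ℝ) ≤
      C * |(discr K : ℝ)| ^ (1 / 2 - c / (l : ℝ)) := by
  choose cf hcf hC using fun (N : ℕ) (hN : 1 ≤ N) => mainR n N 1 hn hN
  let cg : ℕ → ℝ := fun N => if h : 1 ≤ N then cf N h else 1
  have hcg : ∀ N, 0 < cg N := by
    intro N
    change 0 < if h : 1 ≤ N then cf N h else 1
    split_ifs with h
    · exact hcf N h
    · exact one_pos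
  set S : Finset ℕ := range (n.factorial + 1) with hS
  have hSne : S.Nonempty := ⟨0, by rw [hS, mem_range]; omega⟩
  obtain ⟨N1, hN1S, hN1⟩ := S.exists_min_image cg hSne
  set c0 : ℝ := cg N1 with hc0
  have hc00 : 0 < c0 := hcg N1
  refine ⟨c0 / 2, by positivity, ?_⟩
  intro l hl
  have hlr : (1 : ℝ) ≤ l := by exact_mod_cast hl
  have hl0 : (0 : ℝ) < l := by linarith
  choose Cf hCf hC using fun (N : ℕ) (hN : 1 ≤ N) => hC N hN l hl
  let Cg : ℕ → ℝ := fun N => if h : 1 ≤ N then Cf N h else 1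
  have hCg : ∀ N, 0 < Cg N := by
    intro N
    change 0 < if h : 1 ≤ N then Cf N h else 1
    split_ifs with h
    · exact hCf N h
    · exact one_pos
  -- the power of the logarithm
  have hn1 : (0 : ℝ) < (n - 1 : ℕ) := by
    have : 0 < n - 1 := by omega
    exact_mod_cast this
  set e : ℝ := c0 / (2 * l * (n - 1 : ℕ)) with he
  have he0 : 0 < e := by positivity
  refine ⟨(∑ N ∈ S, Cg N) * (1 / e) ^ (n - 1), ?_, ?_⟩
  · have : 0 < ∑ N ∈ S, Cg N := Finset.sum_pos (fun N _ => hCg N) hSne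
    positivity
  intro K _ _ hK hprim d f hd hodd hsmall
  set D : ℝ := |(discr K : ℝ)| with hD
  have hD1 : 1 ≤ D := one_le_abs_discr K
  have hD0 : 0 < D := by linarith
  obtain ⟨L, _, _, _, _, hLn⟩ := exists_galois K
  rw [hK] at hLn
  obtain ⟨N, hN⟩ : ∃ N, Module.finrank ℚ L = N := ⟨_, rfl⟩
  have hN0 : 1 ≤ N := by rw [← hN]; exact Module.finrank_pos
  have hNS : N ∈ S := by rw [hS, mem_range, ← hN]; omega
  have hcN : c0 ≤ cf N hN0 := by
    have h1 := hN1 N hNS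
    have h2 : cg N = cf N hN0 := dif_pos hN0
    rwa [h2] at h1
  have hCN : Cf N hN0 ≤ ∑ N ∈ S, Cg N := by
    have h2 : Cg N = Cf N hN0 := dif_pos hN0
    rw [← h2]
    exact Finset.single_le_sum (fun N _ => (hCg N).le) hNS
  obtain ⟨R0, hR1, hR2⟩ := admR_sqrt (L := L) (by rw [hK]; exact hn) hprim hd
    (by rw [hK]; exact hodd)
  have hcoat := coatom_of_primitive (L := L) (by rw [hK]; exact hn) hprim
  have hf0 : f ≠ 0 := by
    rintro rfl
    apply discr_ne_zero K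
    rw [hd]
    ring
  have hd0 : d ≠ 0 := by
    rintro rfl
    apply discr_ne_zero K
    rw [hd]
    ring
  have hd1 : (1 : ℝ) ≤ |(d : ℝ)| := by exact_mod_cast Int.one_le_abs hd0
  have hR2' : Small R0 (D ^ (cf N hN0 / (l : ℝ) ^ 1)) := by
    refine hR2.mono ?_
    have h1 : √|(d : ℝ)| ≤ |(d : ℝ)| := by
      rw [Real.sqrt_le_left (by linarith)]
      nlinarith
    refine h1.trans (hsmall.trans (Real.rpow_le_rpow_of_exponent_le hD1 ?_))
    rw [pow_one]
    have h2 : c0 / 2 ≤ cf N hN0 := by linarith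
    gcongr
  have hT := hC N hN0 K K L R0 hK hN (by
    intro U hU hcon
    have h1 := hcon 0 one_pos
    have h2 : U 0 = ⊤ := hcoat.2 _ hU
    rw [h2] at h1
    exact not_top_lt h1) hR1 hR2'
  rw [← hD, pow_one] at hT
  have hlog : Real.log D ^ (n - 1) ≤ D ^ (c0 / (2 * l)) * (1 / e) ^ (n - 1) := by
    have h1 : Real.log D ≤ D ^ e / e := Real.log_le_rpow_div hD0.le he0
    have h2 : 0 ≤ Real.log D := Real.log_nonneg hD1
    calc Real.log D ^ (n - 1) ≤ (D ^ e / e) ^ (n - 1) := pow_le_pow_left₀ h2 h1 _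
      _ = (D ^ e) ^ (n - 1) * (1 / e) ^ (n - 1) := by rw [← mul_pow]; congr 1; ring
      _ = D ^ (c0 / (2 * l)) * (1 / e) ^ (n - 1) := by
          rw [← Real.rpow_natCast (D ^ e), ← Real.rpow_mul hD0.le]
          congr 2
          rw [he]
          field_simp
  have hexp : D ^ (-(cf N hN0 / (l : ℝ))) ≤ D ^ (-(c0 / (l : ℝ))) := by
    refine Real.rpow_le_rpow_of_exponent_le hD1 ?_
    rw [neg_le_neg_iff]
    gcongr
  have hlog0 : 0 ≤ Real.log D := Real.log_nonneg hD1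
  calc (Nat.card {x : ClassGroup (𝓞 K) // x ^ l = 1} : ℝ)
      ≤ Cf N hN0 * √D * Real.log D ^ (n - 1) * D ^ (-(cf N hN0 / (l : ℝ))) := hT
    _ ≤ (∑ N ∈ S, Cg N) * √D * (D ^ (c0 / (2 * l)) * (1 / e) ^ (n - 1)) * D ^ (-(c0 / (l : ℝ))) := by
        have h1 : 0 ≤ ∑ N ∈ S, Cg N := Finset.sum_nonneg fun N _ => (hCg N).le
        gcongr
    _ = (∑ N ∈ S, Cg N) * (1 / e) ^ (n - 1) *
          (D ^ (1 / 2 : ℝ) * (D ^ (c0 / (2 * l)) * D ^ (-(c0 / (l : ℝ))))) := by
        rw [Real.sqrt_eq_rpow]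
        ring
    _ = (∑ N ∈ S, Cg N) * (1 / e) ^ (n - 1) * D ^ (1 / 2 - c0 / 2 / (l : ℝ)) := by
        rw [← Real.rpow_add hD0, ← Real.rpow_add hD0]
        congr 2
        field_simp
        ring

end Run7.h673.LU
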