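import Pool.Agent.Run7.h673.LU.Cases

/-! A square root of the discriminant in a Galois extension, and full cycles. -/

set_option autoImplicit false

namespace Run7.h673.LU

open NumberField Finset IntermediateField Run7.h673.LT
open scoped Classical Pointwise

variable {K L : Type} [Field K] [NumberField K] [Field L] [NumberField L] [Algebra K L]
  [IsGalois ℚ L]

theorem finrank_fixed : Module.finrank ℚ (fixedField (fix K L)) = Module.finrank ℚ K := by
  obtain ⟨f⟩ := exists_hom (E := K) (L := L) le_rfl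
  obtain ⟨g⟩ := exists_hom' (E := K) (L := L) le_rfl
  refine le_antisymm ?_ ?_
  · exact LinearMap.finrank_le_finrank_of_injective (f := f.toRatAlgHom.toLinearMap) f.injective
  · exact LinearMap.finrank_le_finrank_of_injective (f := g.toRatAlgHom.toLinearMap) g.injective

theorem card_cosets : Nat.card (Gal(L/ℚ) ⧸ fix K L) = Module.finrank ℚ K := by
  have h1 := Subgroup.card_eq_card_quotient_mul_card_subgroup (fix K L)
  have h2 := Module.finrank_mul_finrank ℚ (fixedField (fix K L)) L
  rw [finrank_fixed, IntermediateField.finrank_fixedField_eq_card,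
    ← IsGalois.card_aut_eq_finrank ℚ L, h1] at h2
  exact (Nat.eq_of_mul_eq_mul_right Nat.card_pos h2).symm

/-- the action of a coset on an element of the subfield -/
noncomputable def act (x : Gal(L/ℚ) ⧸ fix K L) (a : K) : L := x.out (algebraMap K L a)

omit [NumberField K] [IsGalois ℚ L] in
theorem act_mk (g : Gal(L/ℚ)) (a : K) : act (K := K) (g : Gal(L/ℚ) ⧸ fix K L) a =
    g (algebraMap K L a) := by
  unfold act
  set o := ((g : Gal(L/ℚ) ⧸ fix K L)).out with ho
  have h1 : (o : Gal(L/ℚ) ⧸ fix K L) = (g : Gal(L/ℚ) ⧸ fix K L) := QuotientGroup.out_eq' _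
  rw [QuotientGroup.eq] at h1
  have h2 := mem_fix.mp h1 a
  rw [AlgEquiv.mul_apply] at h2
  have h3 := congrArg (fun t => o t) h2
  have h4 : o (o⁻¹ (g (algebraMap K L a))) = g (algebraMap K L a) := o.apply_symm_apply _
  simp only [h4] at h3
  exact h3.symm

omit [NumberField K] [IsGalois ℚ L] in
theorem act_smul (σ : Gal(L/ℚ)) (x : Gal(L/ℚ) ⧸ fix K L) (a : K) :
    act (σ • x) a = σ (act x a) := by
  obtain ⟨g, rfl⟩ := QuotientGroup.mk_surjective x
  have h1 : σ • (g : Gal(L/ℚ) ⧸ fix K L) = ((σ * g : Gal(L/ℚ)) : Gal(L/ℚ) ⧸ fix K L) := rfl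
  rw [h1, act_mk, act_mk, AlgEquiv.mul_apply]

/-- a square root of the discriminant, and the action of full cycles on it -/
theorem exists_sqrt_discr (hn : 2 ≤ Module.finrank ℚ K) : ∃ δ : L, δ ^ 2 = ((discr K : ℤ) : L) ∧
    ∀ σ : Gal(L/ℚ), (∀ x y : Gal(L/ℚ) ⧸ fix K L, ∃ k : ℤ, σ ^ k • x = y) →
      σ δ = -(-1) ^ (Module.finrank ℚ K) * δ := by
  set n := Module.finrank ℚ K with hn'
  let X := Gal(L/ℚ) ⧸ fix K L
  have hcardX : Fintype.card X = n := by
    rw [← Nat.card_eq_fintype_card]
    exact card_cosets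
  obtain ⟨σ0⟩ : Nonempty (L →+* ℂ) := inferInstance
  -- the embeddings
  let f : X → (K →ₐ[ℚ] ℂ) := fun x =>
    (σ0.comp ((x.out : L →+* L).comp (algebraMap K L))).toRatAlgHom
  have hf : ∀ x a, f x a = σ0 (act x a) := fun x a => rfl
  have hfinj : Function.Injective f := by
    intro x y hxy
    obtain ⟨g, rfl⟩ := QuotientGroup.mk_surjective x
    obtain ⟨g', rfl⟩ := QuotientGroup.mk_surjective y
    rw [QuotientGroup.eq, mem_fix]
    intro a
    have h1 := congrArg (fun φ : K →ₐ[ℚ] ℂ => φ a) hxy
    simp only [hf, act_mk] at h1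
    have h2 := σ0.injective h1
    rw [AlgEquiv.mul_apply, ← h2]
    exact g.symm_apply_apply _
  have hcardE : Fintype.card (K →ₐ[ℚ] ℂ) = n := by
    rw [AlgHom.card]
  have hfbij : Function.Bijective f := by
    rw [Fintype.bijective_iff_injective_and_card]
    exact ⟨hfinj, by rw [hcardX, hcardE]⟩
  let e1 : X ≃ (K →ₐ[ℚ] ℂ) := Equiv.ofBijective f hfbij
  let e2 : X ≃ Module.Free.ChooseBasisIndex ℤ (𝓞 K) :=
    Fintype.equivOfCardEq (hcardX.trans (Module.finrank_eq_card_basis (integralBasis K)))
  let A : Matrix X X L := fun i j => act j (integralBasis K (e2 i))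
  refine ⟨A.det, ?_, ?_⟩
  · apply σ0.injective
    rw [map_pow, map_intCast]
    have h1 := Algebra.discr_eq_det_embeddingsMatrixReindex_pow_two ℚ ℂ
      (fun a => integralBasis K (e2 a)) e1
    have h2 : Algebra.discr ℚ (fun a => integralBasis K (e2 a)) = (discr K : ℚ) := by
      have h3 := Algebra.discr_reindex ℚ (integralBasis K) e2.symm
      rw [coe_discr]
      exact h3
    rw [h2] at h1
    have h3 : σ0 A.det = (Algebra.embeddingsMatrixReindex ℚ ℂ
        (fun a => integralBasis K (e2 a)) e1).det := by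
      rw [RingHom.map_det]
      congr 1
    rw [h3, ← h1]
    simp
  · intro σ hσ
    let π : Equiv.Perm X := MulAction.toPerm σ
    have hπ : ∀ x, π x = σ • x := fun x => rfl
    have hπk : ∀ (k : ℤ) (x : X), (π ^ k) x = σ ^ k • x := by
      intro k x
      have h1 : π ^ k = MulAction.toPermHom Gal(L/ℚ) X (σ ^ k) := by
        rw [map_zpow]
        rfl
      rw [h1]
      rfl
    have h1 : σ A.det = (A.submatrix id π).det := by
      have h2 : σ A.det = (σ : L →+* L) A.det := rfl
      rw [h2, RingHom.map_det]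
      congr 1
      ext i j
      rw [RingHom.mapMatrix_apply, Matrix.map_apply, Matrix.submatrix_apply]
      exact (act_smul σ j _).symm
    have hmove : ∀ x : X, π x ≠ x := by
      intro x hx
      have h2 : ∀ y : X, y = x := by
        intro y
        obtain ⟨k, hk⟩ := hσ x y
        rw [← hk, ← hπk]
        have h3 : x ∈ Function.fixedPoints π := hx
        exact Equiv.Perm.zpow_apply_eq_self_of_apply_eq_self hx k
      have h3 : Fintype.card X ≤ 1 := Fintype.card_le_one_iff.mpr fun a b => by rw [h2 a, h2 b]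
      omega
    have hne : Nonempty X := ⟨((1 : Gal(L/ℚ)) : X)⟩
    obtain ⟨x0⟩ := hne
    have hcyc : π.IsCycle := by
      refine ⟨x0, hmove x0, fun y _ => ?_⟩
      obtain ⟨k, hk⟩ := hσ x0 y
      exact ⟨k, by rw [hπk]; exact hk⟩
    have hsupp : π.support = Finset.univ := by
      ext x
      simp only [Equiv.Perm.mem_support, Finset.mem_univ, iff_true]
      exact hmove x
    have hsign : Equiv.Perm.sign π = -(-1) ^ n := by
      rw [hcyc.sign, hsupp, Finset.card_univ, hcardX]
    rw [h1, Matrix.det_permute', hsign]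
    push_cast
    rfl

end Run7.h673.LU
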