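import Pool.Agent.Run7.h673.LU.Ram

/-! Primes with two different factors in `E` over one prime of a subfield. -/

set_option autoImplicit false

namespace Run7.h673.LU

open NumberField IntermediateField Run7.h673.LT
open scoped Classical Pointwise

/-- the elements `σ` of the group such that each orbit of `N` on the cosets of `H` is contained in
an orbit of `σ` -/
def Inert {G : Type} [Group G] (H N : Subgroup G) : Set G :=
  {σ | ∀ ν ∈ N, ∀ x : G ⧸ H, ∃ k : ℤ, σ ^ k • x = ν • x}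

variable {E L : Type} [Field E] [NumberField E] [Field L] [NumberField L] [Algebra E L]
  [IsGalois ℚ L]

omit [NumberField E] [IsGalois ℚ L] in
theorem smul_algebraMap_fix {g : Gal(L/ℚ)} (hg : g ∈ fix E L) (y : 𝓞 E) :
    g • (algebraMap (𝓞 E) (𝓞 L) y) = algebraMap (𝓞 E) (𝓞 L) y := by
  apply RingOfIntegers.ext
  have h1 : ((algebraMap (𝓞 E) (𝓞 L) y : 𝓞 L) : L) = algebraMap E L (y : E) := rfl
  have h2 : ((g • (algebraMap (𝓞 E) (𝓞 L) y) : 𝓞 L) : L) =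
      g (algebraMap E L (y : E)) := rfl
  rw [h1, h2]
  exact mem_fix.mp hg _

/-- the group of `E` acts transitively on the primes of `L` over a prime of `E` -/
theorem trans_primes {Q1 Q2 : Ideal (𝓞 L)} (h1 : Q1.IsPrime) (h2 : Q2.IsPrime)
    (h : Q1.comap (algebraMap (𝓞 E) (𝓞 L)) = Q2.comap (algebraMap (𝓞 E) (𝓞 L))) :
    ∃ g ∈ fix E L, Q2 = g • Q1 := by
  have _ : SMulCommClass (fix E L) (𝓞 E) (𝓞 L) := by
    constructor
    intro g a b
    have e : (g • (a • b) : 𝓞 L) = (g : Gal(L/ℚ)) • (a • b) := rfl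
    have e' : (g • b : 𝓞 L) = (g : Gal(L/ℚ)) • b := rfl
    rw [e, e', Algebra.smul_def, Algebra.smul_def, smul_mul', smul_algebraMap_fix g.2]
  have _ : Algebra.IsInvariant (𝓞 E) (𝓞 L) (fix E L) := by
    constructor
    intro b hb
    obtain ⟨y, hy⟩ := mem_range_of_fixed (E := E) (x := (b : L)) fun g hg => by
      have h3 := hb ⟨g, hg⟩
      exact congrArg (fun t : 𝓞 L => (t : L)) h3
    have hint : IsIntegral ℤ y := by
      rw [← isIntegral_algebraMap_iff (algebraMap E L).injective, hy]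
      exact RingOfIntegers.isIntegral_coe b
    refine ⟨⟨y, hint⟩, ?_⟩
    apply RingOfIntegers.ext
    exact hy
  obtain ⟨g, hg⟩ := Algebra.IsInvariant.exists_smul_of_under_eq (𝓞 E) (𝓞 L) (fix E L) Q1 Q2 h
  exact ⟨g, g.2, hg⟩

omit [IsGalois ℚ L] in
/-- an element of the decomposition group acts like a power of the Frobenius element -/
theorem decomp_pow {p : ℕ} (hp : p.Prime) {Q0 : Ideal (𝓞 L)} {σ0 : Gal(L/ℚ)}
    (hQ0 : Q0.IsPrime) (hpQ0 : ((p : ℕ) : 𝓞 L) ∈ Q0) (h : ∀ x : 𝓞 L, σ0 • x - x ^ p ∈ Q0)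
    {d : Gal(L/ℚ)} (hd : d • Q0 = Q0) : ∃ k : ℕ, ∀ x : 𝓞 L, d • x - σ0 ^ k • x ∈ Q0 := by
  have hQ0ne : Q0 ≠ ⊥ := by
    rintro rfl
    rw [Ideal.mem_bot] at hpQ0
    exact hp.ne_zero (by exact_mod_cast hpQ0)
  have hQ0m : Q0.IsMaximal := hQ0.isMaximal hQ0ne
  have hfin : Finite (𝓞 L ⧸ Q0) := Ideal.finiteQuotientOfFreeOfNeBot Q0 hQ0ne
  let _ : Field (𝓞 L ⧸ Q0) := Ideal.Quotient.field Q0
  have hchar : CharP (𝓞 L ⧸ Q0) p := by
    have h0 : ((p : ℕ) : 𝓞 L ⧸ Q0) = 0 := by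
      have := Ideal.Quotient.eq_zero_iff_mem.mpr hpQ0
      rw [map_natCast] at this
      exact this
    exact (CharP.charP_iff_prime_eq_zero hp).mpr h0
  have hpf : Fact p.Prime := ⟨hp⟩
  let _ : Algebra (ZMod p) (𝓞 L ⧸ Q0) := ZMod.algebra _ p
  -- the automorphism of the residue field
  have hmem : ∀ x ∈ Q0, d • x ∈ Q0 := by
    intro x hx
    have := Ideal.smul_mem_pointwise_smul d x Q0 hx
    rwa [hd] at this
  let δ : 𝓞 L ⧸ Q0 →+* 𝓞 L ⧸ Q0 := Ideal.quotientMap Q0 (MulSemiringAction.toRingHom Gal(L/ℚ) (𝓞 L) d)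
    (fun x hx => hmem x hx)
  have hδ : ∀ x : 𝓞 L, δ (Ideal.Quotient.mk Q0 x) = Ideal.Quotient.mk Q0 (d • x) := fun x => rfl
  have hcomm : ∀ r : ZMod p, δ (algebraMap (ZMod p) (𝓞 L ⧸ Q0) r) =
      algebraMap (ZMod p) (𝓞 L ⧸ Q0) r := by
    intro r
    have h1 : (δ.comp (algebraMap (ZMod p) (𝓞 L ⧸ Q0))) = algebraMap (ZMod p) (𝓞 L ⧸ Q0) :=
      Subsingleton.elim _ _
    exact congrArg (fun f : ZMod p →+* 𝓞 L ⧸ Q0 => f r) h1
  let δ' : 𝓞 L ⧸ Q0 →ₐ[ZMod p] 𝓞 L ⧸ Q0 := { δ with commutes' := hcomm }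
  obtain ⟨k, hk⟩ := (FiniteField.bijective_frobeniusAlgHom_pow (ZMod p) (𝓞 L ⧸ Q0)).2 δ'
  refine ⟨k, fun x => ?_⟩
  -- powers of the Frobenius element
  have h1 : ∀ (m : ℕ) (y : 𝓞 L), Ideal.Quotient.mk Q0 (σ0 ^ m • y) =
      (Ideal.Quotient.mk Q0 y) ^ (p ^ m) := by
    intro m
    induction m with
    | zero => intro y; simp
    | succ m ih =>
      intro y
      rw [pow_succ', mul_smul]
      have h2 : Ideal.Quotient.mk Q0 (σ0 • (σ0 ^ m • y)) = Ideal.Quotient.mk Q0 ((σ0 ^ m • y) ^ p) := by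
        rw [Ideal.Quotient.mk_eq_mk_iff_sub_mem]
        exact h _
      rw [h2, map_pow, ih, ← pow_mul, ← pow_succ]
  rw [← Ideal.Quotient.mk_eq_mk_iff_sub_mem, h1, ← hδ]
  have h2 : δ (Ideal.Quotient.mk Q0 x) = δ' (Ideal.Quotient.mk Q0 x) := rfl
  rw [h2, ← hk]
  have h3 : ∀ (m : ℕ) (y : 𝓞 L ⧸ Q0), (FiniteField.frobeniusAlgHom (ZMod p) (𝓞 L ⧸ Q0) ^ m) y =
      y ^ (p ^ m) := by
    intro m
    induction m with
    | zero => intro y; simp
    | succ m ih =>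
      intro y
      rw [pow_succ', AlgHom.mul_apply, ih, FiniteField.coe_frobeniusAlgHom, ZMod.card]
      change (y ^ p ^ m) ^ p = y ^ p ^ (m + 1)
      rw [← pow_mul, ← pow_succ]
  exact h3 _ _

/-- two primes of `E` over one prime of the fixed field of `N0` in `E` -/
theorem two_primes {p : ℕ} (hp : p.Prime) (hpE : ¬ p ∣ (discr E).natAbs) {Q0 : Ideal (𝓞 L)}
    {σ0 : Gal(L/ℚ)} (hQ0 : Q0.IsPrime) (hpQ0 : ((p : ℕ) : 𝓞 L) ∈ Q0)
    (h : ∀ x : 𝓞 L, σ0 • x - x ^ p ∈ Q0) {N0 : Subgroup Gal(L/ℚ)} (hN0 : N0.Normal)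
    (hσ : σ0 ∉ Inert (fix E L) N0) :
    ∃ P P' : Ideal (𝓞 E), P.IsPrime ∧ P'.IsPrime ∧ ((p : ℕ) : 𝓞 E) ∈ P ∧ ((p : ℕ) : 𝓞 E) ∈ P' ∧
      P ≠ P' ∧ ∀ x : 𝓞 E, algebraMap E L (x : E) ∈ fixedField N0 → x ∈ P → x ∈ P' := by
  unfold Inert at hσ
  rw [Set.mem_ofPred_eq] at hσ
  push Not at hσ
  obtain ⟨ν, hν, x, hx⟩ := hσ
  obtain ⟨g, rfl⟩ := QuotientGroup.mk_surjective x
  have hx' : ∀ k : ℤ, (σ0 ^ k * g)⁻¹ * (ν * g) ∉ fix E L := by
    intro k hk
    exact hx k (QuotientGroup.eq.mpr hk)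
  set φ := algebraMap (𝓞 E) (𝓞 L) with hφ
  have hp1 : ∀ τ : Gal(L/ℚ), ((p : ℕ) : 𝓞 L) ∈ τ⁻¹ • Q0 := by
    intro τ
    rw [Ideal.mem_inv_pointwise_smul_iff]
    have e : τ • ((p : ℕ) : 𝓞 L) = p :=
      map_natCast (MulSemiringAction.toRingHom Gal(L/ℚ) (𝓞 L) τ) p
    rw [e]
    exact hpQ0
  have hQ1 : (g⁻¹ • Q0).IsPrime := inferInstance
  have hQ2 : ((ν * g)⁻¹ • Q0).IsPrime := inferInstance
  refine ⟨(g⁻¹ • Q0).comap φ, ((ν * g)⁻¹ • Q0).comap φ, Ideal.IsPrime.comap _, Ideal.IsPrime.comap _,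
    ?_, ?_, ?_, ?_⟩
  · rw [Ideal.mem_comap, map_natCast]; exact hp1 _
  · rw [Ideal.mem_comap, map_natCast]; exact hp1 _
  · intro heq
    obtain ⟨k, hk, hQ⟩ := trans_primes (E := E) hQ1 hQ2 heq
    -- the element of the decomposition group
    set d := ν * g * k * g⁻¹ with hd
    have hdQ : d • Q0 = Q0 := by
      rw [hd, mul_smul, mul_smul, ← hQ, smul_inv_smul]
    obtain ⟨m, hm⟩ := decomp_pow hp hQ0 hpQ0 h hdQ
    -- an element of the inertia group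
    have hσQ : ∀ (m : ℕ) (y : 𝓞 L), y ∈ Q0 → (σ0 ^ m)⁻¹ • y ∈ Q0 := by
      have hstab : σ0 ∈ MulAction.stabilizer Gal(L/ℚ) Q0 := by
        rw [MulAction.mem_stabilizer_iff]
        have hle : σ0 • Q0 ≤ Q0 := by
          intro y hy
          rw [Ideal.mem_pointwise_smul_iff_inv_smul_mem] at hy
          have h1 := h (σ0⁻¹ • y)
          rw [smul_inv_smul] at h1
          have h2 := Q0.pow_mem_of_mem hy p hp.pos
          have h3 := Q0.add_mem h1 h2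
          rwa [sub_add_cancel] at h3
        have hmax1 : (σ0 • Q0).IsPrime := inferInstance
        have hne : σ0 • Q0 ≠ ⊥ := by
          intro h0
          have := hp1 σ0⁻¹
          rw [inv_inv, h0, Ideal.mem_bot] at this
          exact hp.ne_zero (by exact_mod_cast this)
        exact (hmax1.isMaximal hne).eq_of_le hQ0.ne_top hle
      intro m y hy
      have h1 : (σ0 ^ m)⁻¹ ∈ MulAction.stabilizer Gal(L/ℚ) Q0 := inv_mem (pow_mem hstab m)
      rw [MulAction.mem_stabilizer_iff] at h1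
      have h2 := Ideal.smul_mem_pointwise_smul ((σ0 ^ m)⁻¹) y Q0 hy
      rwa [h1] at h2
    have hi : ∀ y : 𝓞 L, (g⁻¹ * ((σ0 ^ m)⁻¹ * d) * g) • y - y ∈ g⁻¹ • Q0 := by
      intro y
      rw [Ideal.mem_inv_pointwise_smul_iff, smul_sub, ← mul_smul]
      have e1 : g * (g⁻¹ * ((σ0 ^ m)⁻¹ * d) * g) = (σ0 ^ m)⁻¹ * (d * g) := by group
      have h1 := hσQ m _ (hm (g • y))
      rw [smul_sub, inv_smul_smul, ← mul_smul, ← mul_smul] at h1
      rw [e1]
      exact h1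
    have h2 := inertia_fix (E := E) hp hpE hQ1 (hp1 g) hi
    apply hx' (m : ℤ)
    have h3 : (σ0 ^ (m : ℤ) * g)⁻¹ * (ν * g) = (g⁻¹ * ((σ0 ^ m)⁻¹ * d) * g) * k⁻¹ := by
      rw [hd, zpow_natCast]
      group
    rw [h3]
    exact mul_mem h2 (inv_mem hk)
  · intro y hy hyP
    rw [Ideal.mem_comap, Ideal.mem_inv_pointwise_smul_iff] at hyP ⊢
    have h1 : (g⁻¹ * ν * g) • φ y = φ y := by
      apply RingOfIntegers.ext
      have hmem : g⁻¹ * ν * g ∈ N0 := by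
        have := hN0.conj_mem ν hν g⁻¹
        rwa [inv_inv] at this
      rw [IntermediateField.mem_fixedField_iff] at hy
      exact hy _ hmem
    have h2 : (ν * g) • φ y = g • φ y := by
      rw [← congrArg (fun t => g • t) h1]
      simp only [← mul_smul]
      congr 1
      group
    rw [h2]
    exact hyP

end Run7.h673.LU
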