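import Pool.Agent.Run7.h673.LT.Gen

/-! Products of differences and factorials at the primes of a number field. -/

set_option autoImplicit false

namespace Run7.h673.LU

open NumberField Finset IsDedekindDomain
open scoped Classical Pointwise

variable {L : Type} [Field L] [NumberField L]

/-- a prime number in a prime ideal -/
theorem exists_prime_mem {Q : Ideal (𝓞 L)} (hQ : Q.IsPrime) (hQ0 : Q ≠ ⊥) :
    ∃ p : ℕ, p.Prime ∧ ((p : ℕ) : 𝓞 L) ∈ Q := by
  have h1 : ∃ m : ℕ, 0 < m ∧ ((m : ℕ) : 𝓞 L) ∈ Q :=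
    ⟨Ideal.absNorm Q, Pool.Agent.TH847.LS.absNorm_pos hQ0, Ideal.absNorm_mem Q⟩
  obtain ⟨hm0, hmQ⟩ := Nat.find_spec h1
  set m := Nat.find h1 with hm
  refine ⟨m, ?_, hmQ⟩
  have hm1 : m ≠ 1 := by
    intro h
    rw [h, Nat.cast_one] at hmQ
    exact hQ.ne_top ((Ideal.eq_top_iff_one _).mpr hmQ)
  by_contra hnp
  obtain ⟨a, b, ha, hb, hab⟩ := (Nat.not_prime_iff_exists_mul_eq (by omega)).mp hnp
  rw [← hab, Nat.cast_mul] at hmQ
  have ha0 : 0 < a := by
    rcases Nat.eq_zero_or_pos a with h | h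
    · rw [h, zero_mul] at hab; omega
    · exact h
  have hb0 : 0 < b := by
    rcases Nat.eq_zero_or_pos b with h | h
    · rw [h, mul_zero] at hab; omega
    · exact h
  rcases hQ.mem_or_mem hmQ with h | h
  · exact Nat.find_min h1 ha ⟨ha0, h⟩
  · exact Nat.find_min h1 hb ⟨hb0, h⟩

theorem coprime_notMem {Q : Ideal (𝓞 L)} (hQ : Q.IsPrime) {p m : ℕ} (hp : ((p : ℕ) : 𝓞 L) ∈ Q)
    (h : Nat.Coprime p m) : ((m : ℕ) : 𝓞 L) ∉ Q := by
  intro hm
  have hcop : IsCoprime (p : ℤ) (m : ℤ) := Nat.isCoprime_iff_coprime.mpr h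
  obtain ⟨u, w, huw⟩ := hcop
  apply hQ.ne_top
  rw [Ideal.eq_top_iff_one]
  have h8 := Q.add_mem (Q.mul_mem_left ((u : ℤ) : 𝓞 L) hp) (Q.mul_mem_left ((w : ℤ) : 𝓞 L) hm)
  have h9 : ((u : ℤ) : 𝓞 L) * ((p : ℕ) : 𝓞 L) + ((w : ℤ) : 𝓞 L) * ((m : ℕ) : 𝓞 L) = 1 := by
    have := congrArg (fun t : ℤ => (t : 𝓞 L)) huw
    push_cast at this
    exact this
  rwa [h9] at h8

/-- the products of differences divide the factorial -/
theorem prod_dist_dvd {X t0 : ℕ} (h1 : 1 ≤ t0) (h2 : t0 ≤ X) (A : Finset ℕ)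
    (hA : A ⊆ Finset.Icc 1 X) (ht0 : t0 ∉ A) : ∏ t ∈ A, Nat.dist t t0 ∣ (X - 1).factorial := by
  have hsub : A ⊆ (Finset.Icc 1 X).erase t0 := by
    intro t ht
    rw [Finset.mem_erase]
    exact ⟨fun h => ht0 (h ▸ ht), hA ht⟩
  refine (Finset.prod_dvd_prod_of_subset _ _ _ hsub).trans ?_
  have hlow : ∀ k : ℕ, ∏ t ∈ Finset.Ico 1 (k + 1), Nat.dist t (k + 1) = k.factorial := by
    intro k
    rw [Finset.prod_Ico_eq_prod_range, Nat.add_sub_cancel, ← Finset.prod_range_reflect,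
      ← Finset.prod_range_add_one_eq_factorial]
    refine Finset.prod_congr rfl fun j hj => ?_
    rw [Finset.mem_range] at hj
    unfold Nat.dist
    omega
  have hup : ∀ k : ℕ, ∏ t ∈ Finset.Ioc t0 (t0 + k), Nat.dist t t0 = k.factorial := by
    intro k
    induction k with
    | zero => simp
    | succ k ih =>
      rw [← add_assoc, Finset.prod_Ioc_succ_top (by omega), ih, Nat.factorial_succ, mul_comm]
      congr 1
      unfold Nat.dist
      omega
  have hsplit : (Finset.Icc 1 X).erase t0 = Finset.Ico 1 t0 ∪ Finset.Ioc t0 X := by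
    ext t
    simp only [Finset.mem_erase, Finset.mem_Icc, Finset.mem_union, Finset.mem_Ico, Finset.mem_Ioc]
    omega
  have hdisj : Disjoint (Finset.Ico 1 t0) (Finset.Ioc t0 X) := by
    rw [Finset.disjoint_left]
    intro t ht ht'
    rw [Finset.mem_Ico] at ht
    rw [Finset.mem_Ioc] at ht'
    omega
  rw [hsplit, Finset.prod_union hdisj]
  obtain ⟨k, rfl⟩ : ∃ k, t0 = k + 1 := ⟨t0 - 1, by omega⟩
  obtain ⟨j, rfl⟩ : ∃ j, X = k + 1 + j := ⟨X - (k + 1), by omega⟩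
  rw [hlow, hup]
  have h3 : k + 1 + j - 1 = k + j := by omega
  rw [h3]
  exact Nat.factorial_mul_factorial_dvd_factorial_add k j

theorem intVal_dist (v : HeightOneSpectrum (𝓞 L)) (a b : ℕ) (θ : 𝓞 L) (c : ℕ) :
    v.intValuation (((Nat.dist a b : ℕ)) : 𝓞 L) =
      v.intValuation ((((c + a : ℕ) : 𝓞 L) - θ) - (((c + b : ℕ) : 𝓞 L) - θ)) := by
  rcases le_total a b with h | h
  · have e : ((((c + a : ℕ) : 𝓞 L) - θ) - (((c + b : ℕ) : 𝓞 L) - θ)) = -(((Nat.dist a b : ℕ)) : 𝓞 L) := by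
      rw [Nat.dist_eq_sub_of_le h, Nat.cast_sub h]
      push_cast
      ring
    rw [e, Valuation.map_neg]
  · have e : ((((c + a : ℕ) : 𝓞 L) - θ) - (((c + b : ℕ) : 𝓞 L) - θ)) = (((Nat.dist a b : ℕ)) : 𝓞 L) := by
      rw [Nat.dist_eq_sub_of_le_right h, Nat.cast_sub h]
      push_cast
      ring
    rw [e]

/-- the valuation of the product, away from the index with the largest valuation -/
theorem val_factorial_le (v : HeightOneSpectrum (𝓞 L)) (θ : 𝓞 L) (c X : ℕ) {t0 : ℕ} (h1 : 1 ≤ t0)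
    (h2 : t0 ≤ X) (hmin : ∀ t ∈ Finset.Icc 1 X, v.intValuation (((c + t0 : ℕ) : 𝓞 L) - θ) ≤
      v.intValuation (((c + t : ℕ) : 𝓞 L) - θ)) (A : Finset ℕ) (hA : A ⊆ Finset.Icc 1 X)
    (ht0 : t0 ∉ A) :
    v.intValuation (((X - 1).factorial : ℕ) : 𝓞 L) ≤
      v.intValuation (∏ t ∈ A, (((c + t : ℕ) : 𝓞 L) - θ)) := by
  obtain ⟨m, hm⟩ := prod_dist_dvd h1 h2 A hA ht0
  calc v.intValuation (((X - 1).factorial : ℕ) : 𝓞 L)
      = v.intValuation ((∏ t ∈ A, Nat.dist t t0 : ℕ) : 𝓞 L) * v.intValuation ((m : ℕ) : 𝓞 L) := by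
        rw [hm, Nat.cast_mul, map_mul]
    _ ≤ v.intValuation ((∏ t ∈ A, Nat.dist t t0 : ℕ) : 𝓞 L) * 1 := by
        gcongr
        exact v.intValuation_le_one _
    _ = ∏ t ∈ A, v.intValuation (((Nat.dist t t0 : ℕ)) : 𝓞 L) := by
        rw [mul_one, Nat.cast_prod, map_prod]
    _ ≤ ∏ t ∈ A, v.intValuation (((c + t : ℕ) : 𝓞 L) - θ) := by
        refine Finset.prod_le_prod' fun t ht => ?_
        rw [intVal_dist v t t0 θ c]
        refine (Valuation.map_sub _ _ _).trans ?_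
        exact max_le le_rfl (hmin t (hA ht))
    _ = v.intValuation (∏ t ∈ A, (((c + t : ℕ) : 𝓞 L) - θ)) := by rw [map_prod]

/-- the part of a natural number at a set of primes, at a prime over one of them -/
theorem val_part (v : HeightOneSpectrum (𝓞 L)) {p : ℕ} (hp : p.Prime)
    (hpv : ((p : ℕ) : 𝓞 L) ∈ v.asIdeal) (T : Finset ℕ) (hT : ∀ q ∈ T, q.Prime) (hpT : p ∈ T)
    {F : ℕ} (hF : F ≠ 0) :
    v.intValuation ((∏ q ∈ T, q ^ F.factorization q : ℕ) : 𝓞 L) = v.intValuation ((F : ℕ) : 𝓞 L) := by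
  have hone : ∀ m : ℕ, Nat.Coprime p m → v.intValuation ((m : ℕ) : 𝓞 L) = 1 := by
    intro m hm
    rw [HeightOneSpectrum.intValuation_eq_one_iff]
    exact coprime_notMem v.isPrime hpv hm
  have h1 : v.intValuation ((∏ q ∈ T, q ^ F.factorization q : ℕ) : 𝓞 L) =
      v.intValuation ((p : ℕ) : 𝓞 L) ^ F.factorization p := by
    rw [Nat.cast_prod, map_prod, Finset.prod_eq_single p]
    · rw [Nat.cast_pow, map_pow]
    · intro q hq hqp
      refine hone _ ?_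
      exact Nat.Coprime.pow_right _ ((Nat.coprime_primes hp (hT q hq)).mpr (Ne.symm hqp))
    · intro h
      exact absurd hpT h
  have h2 : v.intValuation ((F : ℕ) : 𝓞 L) = v.intValuation ((p : ℕ) : 𝓞 L) ^ F.factorization p := by
    conv_lhs => rw [← Nat.ordProj_mul_ordCompl_eq_self F p]
    rw [Nat.cast_mul, map_mul, Nat.cast_pow, map_pow, hone _ (Nat.coprime_ordCompl hp hF), mul_one]
  rw [h1, h2]

end Run7.h673.LU
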